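import Pool.Agent.Lib.MP_5a182c_lc.Defs

/-!
A countable set of sequences of naturals closed under countably many operations.
-/

namespace Pool.Agent.Lib.MP_5a182c_lc

/-- The standard structure. -/
abbrev Nstd : Str := ⟨ℕ, 0, 1, (· + ·), (· * ·), (· < ·), Set.univ⟩

def Tm.code : Tm → ℕ
  | .var i => Nat.pair 0 i
  | .zero => Nat.pair 1 0
  | .one => Nat.pair 2 0
  | .add s t => Nat.pair 3 (Nat.pair s.code t.code)
  | .mul s t => Nat.pair 4 (Nat.pair s.code t.code)

theorem Tm.code_inj : ∀ s t : Tm, s.code = t.code → s = t := by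
  intro s
  induction s with
  | var i => intro t h; cases t <;> simp_all [Tm.code]
  | zero => intro t h; cases t <;> simp_all [Tm.code]
  | one => intro t h; cases t <;> simp_all [Tm.code]
  | add a b iha ihb =>
    intro t h
    cases t <;> simp only [Tm.code, Nat.pair_eq_pair] at h <;> try omega
    rw [iha _ h.2.1, ihb _ h.2.2]
  | mul a b iha ihb =>
    intro t h
    cases t <;> simp only [Tm.code, Nat.pair_eq_pair] at h <;> try omega
    rw [iha _ h.2.1, ihb _ h.2.2]

def Bd.code : Bd → ℕ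
  | .eq s t => Nat.pair 0 (Nat.pair s.code t.code)
  | .lt s t => Nat.pair 1 (Nat.pair s.code t.code)
  | .mem t j => Nat.pair 2 (Nat.pair t.code j)
  | .not φ => Nat.pair 3 φ.code
  | .and φ ψ => Nat.pair 4 (Nat.pair φ.code ψ.code)
  | .ball t φ => Nat.pair 5 (Nat.pair t.code φ.code)

theorem Bd.code_inj : ∀ φ ψ : Bd, φ.code = ψ.code → φ = ψ := by
  intro φ
  induction φ with
  | eq a b =>
    intro t h
    cases t <;> simp only [Bd.code, Nat.pair_eq_pair] at h <;> try omega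
    rw [Tm.code_inj _ _ h.2.1, Tm.code_inj _ _ h.2.2]
  | lt a b =>
    intro t h
    cases t <;> simp only [Bd.code, Nat.pair_eq_pair] at h <;> try omega
    rw [Tm.code_inj _ _ h.2.1, Tm.code_inj _ _ h.2.2]
  | mem a j =>
    intro t h
    cases t <;> simp only [Bd.code, Nat.pair_eq_pair] at h <;> try omega
    rw [Tm.code_inj _ _ h.2.1, h.2.2]
  | not a iha =>
    intro t h
    cases t <;> simp only [Bd.code, Nat.pair_eq_pair] at h <;> try omega
    rw [iha _ h.2]
  | and a b iha ihb =>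
    intro t h
    cases t <;> simp only [Bd.code, Nat.pair_eq_pair] at h <;> try omega
    rw [iha _ h.2.1, ihb _ h.2.2]
  | ball a b ihb =>
    intro t h
    cases t <;> simp only [Bd.code, Nat.pair_eq_pair] at h <;> try omega
    rw [Tm.code_inj _ _ h.2.1, ihb _ h.2.2]

instance Bd.countable : Countable Bd := ⟨⟨Bd.code, Bd.code_inj⟩⟩

theorem Tm.val_fin (A : Str) (t : Tm) : ∃ k, ∀ v v' : ℕ → A.M, (∀ j < k, v j = v' j) →
    t.val A v = t.val A v' := by
  induction t with
  | var i => exact ⟨i + 1, fun v v' h => h i (by omega)⟩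
  | zero => exact ⟨0, fun _ _ _ => rfl⟩
  | one => exact ⟨0, fun _ _ _ => rfl⟩
  | add s t hs ht =>
    obtain ⟨k, hk⟩ := hs
    obtain ⟨l, hl⟩ := ht
    refine ⟨k + l, fun v v' h => ?_⟩
    simp only [Tm.val]
    rw [hk v v' fun j hj => h j (by omega), hl v v' fun j hj => h j (by omega)]
  | mul s t hs ht =>
    obtain ⟨k, hk⟩ := hs
    obtain ⟨l, hl⟩ := ht
    refine ⟨k + l, fun v v' h => ?_⟩
    simp only [Tm.val]
    rw [hk v v' fun j hj => h j (by omega), hl v v' fun j hj => h j (by omega)]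

theorem push_agree {α : Type} (a : α) {v v' : ℕ → α} {k : ℕ} (h : ∀ j < k, v j = v' j) :
    ∀ j < k, push a v j = push a v' j
  | 0, _ => rfl
  | j + 1, hj => h j (by omega)

theorem Bd.sat_fin (A : Str) (φ : Bd) : ∃ k, ∀ (V V' : ℕ → Set A.M) (v v' : ℕ → A.M),
    (∀ j < k, V j = V' j) → (∀ j < k, v j = v' j) → (φ.Sat A V v ↔ φ.Sat A V' v') := by
  induction φ with
  | eq s t =>
    obtain ⟨k, hk⟩ := s.val_fin A
    obtain ⟨l, hl⟩ := t.val_fin A
    refine ⟨k + l, fun V V' v v' _ h => ?_⟩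
    simp only [Bd.Sat]
    rw [hk v v' fun j hj => h j (by omega), hl v v' fun j hj => h j (by omega)]
  | lt s t =>
    obtain ⟨k, hk⟩ := s.val_fin A
    obtain ⟨l, hl⟩ := t.val_fin A
    refine ⟨k + l, fun V V' v v' _ h => ?_⟩
    simp only [Bd.Sat]
    rw [hk v v' fun j hj => h j (by omega), hl v v' fun j hj => h j (by omega)]
  | mem t i =>
    obtain ⟨l, hl⟩ := t.val_fin A
    refine ⟨l + i + 1, fun V V' v v' h' h => ?_⟩
    simp only [Bd.Sat]
    rw [hl v v' fun j hj => h j (by omega), h' i (by omega)]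
  | not φ ih =>
    obtain ⟨k, hk⟩ := ih
    exact ⟨k, fun V V' v v' h' h => not_congr (hk V V' v v' h' h)⟩
  | and φ ψ ih1 ih2 =>
    obtain ⟨k, hk⟩ := ih1
    obtain ⟨l, hl⟩ := ih2
    exact ⟨k + l, fun V V' v v' h' h => and_congr
      (hk V V' v v' (fun j hj => h' j (by omega)) fun j hj => h j (by omega))
      (hl V V' v v' (fun j hj => h' j (by omega)) fun j hj => h j (by omega))⟩
  | ball t φ ih =>
    obtain ⟨k, hk⟩ := ih
    obtain ⟨l, hl⟩ := t.val_fin A
    refine ⟨k + l, fun V V' v v' h' h => ?_⟩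
    simp only [Bd.Sat]
    rw [hl v v' fun j hj => h j (by omega)]
    exact forall_congr' fun a => imp_congr_right fun _ => hk V V' _ _
      (fun j hj => h' j (by omega)) (push_agree a fun j hj => h j (by omega))

theorem closure0 (ι : Type) [Countable ι] (op : ι → (ℕ → ℕ) → ℕ)
    (hop : ∀ i, ∃ k, ∀ w w' : ℕ → ℕ, (∀ j < k, w j = w' j) → op i w = op i w') :
    ∃ F : Set (ℕ → ℕ), F.Countable ∧ id ∈ F ∧ ∀ i (g : ℕ → ℕ → ℕ), (∀ j, g j ∈ F) →
      (fun n => op i fun j => g j n) ∈ F := by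
  classical
  choose k hk using hop
  let β : Option ι → Type := fun o => Fin (o.elim 0 k)
  let _ : Encodable (Option ι) := Encodable.ofCountable _
  let _ : ∀ o, Fintype (β o) := fun o => inferInstanceAs (Fintype (Fin _))
  let _ : ∀ o, Encodable (β o) := fun o => inferInstanceAs (Encodable (Fin _))
  let ev : WType β → ℕ → ℕ := WType.elim (ℕ → ℕ) fun p => match p with
    | ⟨none, _⟩ => id
    | ⟨some i, f⟩ => fun n => op i fun j => if h : j < k i then f ⟨j, h⟩ n else 0
  refine ⟨Set.range ev, Set.countable_range ev, ⟨WType.mk none fun j => j.elim0, rfl⟩,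
    fun i g hg => ?_⟩
  choose t ht using hg
  refine ⟨WType.mk (some i) fun j => t j.1, ?_⟩
  funext n
  refine hk i _ _ fun j hj => ?_
  simp only [dif_pos hj]
  exact congrFun (ht j) n

/-- Codes of finite sets. -/
noncomputable def encF : Finset ℕ → ℕ := (exists_injective_nat (Finset ℕ)).choose
noncomputable def decF : ℕ → Finset ℕ := Function.invFun encF
theorem decF_encF (X : Finset ℕ) : decF (encF X) = X :=
  Function.leftInverse_invFun (exists_injective_nat (Finset ℕ)).choose_spec X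

/-- Satisfaction in the standard structure at index `n`. -/
def SatN (G : ℕ → ℕ → ℕ) (φ : Bd) (g : ℕ → ℕ → ℕ) (n : ℕ) : Prop :=
  φ.Sat Nstd (fun j => (decF (G j n) : Set ℕ)) fun j => g j n

/-- The same with two extra arguments. -/
def Pr (G : ℕ → ℕ → ℕ) (φ : Bd) (g : ℕ → ℕ → ℕ) (n x y : ℕ) : Prop :=
  φ.Sat Nstd (fun j => (decF (G j n) : Set ℕ)) (push y (push x fun j => g j n))

/-- Shapes of operations. -/
def Shape : Type := ℕ → ℕ → ℕ → ℕ → ℕ → (ℕ → ℕ → Prop) → (ℕ → ℕ → Prop) → ℕ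

theorem closure (ι : Type) [Countable ι] (sh : ι → Shape) :
    ∃ F : Set (ℕ → ℕ), F.Countable ∧ id ∈ F ∧ ∀ i (φ ψ : Bd) (a b c d e : ℕ → ℕ)
      (g G : ℕ → ℕ → ℕ), a ∈ F → b ∈ F → c ∈ F → d ∈ F → e ∈ F → (∀ j, g j ∈ F) →
      (∀ j, G j ∈ F) →
      (fun n => sh i (a n) (b n) (c n) (d n) (e n) (Pr G φ g n) (Pr G ψ g n)) ∈ F := by
  let op : ι × Bd × Bd → (ℕ → ℕ) → ℕ := fun p w => sh p.1 (w 0) (w 1) (w 2) (w 3) (w 4)
    (Pr (fun j _ => w (2 * j + 5)) p.2.1 (fun j _ => w (2 * j + 6)) 0)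
    (Pr (fun j _ => w (2 * j + 5)) p.2.2 (fun j _ => w (2 * j + 6)) 0)
  have hP : ∀ φ : Bd, ∃ k, ∀ w w' : ℕ → ℕ, (∀ j < k, w j = w' j) →
      Pr (fun j _ => w (2 * j + 5)) φ (fun j _ => w (2 * j + 6)) 0 =
      Pr (fun j _ => w' (2 * j + 5)) φ (fun j _ => w' (2 * j + 6)) 0 := by
    intro φ
    obtain ⟨k, hk⟩ := φ.sat_fin Nstd
    refine ⟨2 * k + 7, fun w w' h => ?_⟩
    funext x y
    refine propext (hk _ _ _ _ (fun j hj => ?_) (push_agree _ (push_agree _ fun j hj => ?_)))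
    · exact congrArg (fun z => (decF z : Set ℕ)) (h (2 * j + 5) (by omega))
    · exact h (2 * j + 6) (by omega)
  obtain ⟨F, h1, h2, h3⟩ := closure0 (ι × Bd × Bd) op (by
    rintro ⟨i, φ, ψ⟩
    obtain ⟨k, hk⟩ := hP φ
    obtain ⟨l, hl⟩ := hP ψ
    refine ⟨k + l + 5, fun w w' h => ?_⟩
    simp only [op]
    rw [hk w w' fun j hj => h j (by omega), hl w w' fun j hj => h j (by omega),
      h 0 (by omega), h 1 (by omega), h 2 (by omega), h 3 (by omega), h 4 (by omega)])
  refine ⟨F, h1, h2, fun i φ ψ a b c d e g G ha hb hc hd he hg hG => ?_⟩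
  let w : ℕ → ℕ → ℕ := push a (push b (push c (push d (push e
    fun j => if j % 2 = 0 then G (j / 2) else g (j / 2)))))
  have hw : ∀ j, w j ∈ F
    | 0 => ha
    | 1 => hb
    | 2 => hc
    | 3 => hd
    | 4 => he
    | j + 5 => by
      show (if j % 2 = 0 then G (j / 2) else g (j / 2)) ∈ F
      split_ifs
      · exact hG _
      · exact hg _
  have e1 : ∀ j, w (2 * j + 5) = G j := fun j => by
    show (if (2 * j) % 2 = 0 then G (2 * j / 2) else g (2 * j / 2)) = G j
    rw [if_pos (by omega), Nat.mul_div_cancel_left j (by norm_num)]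
  have e2 : ∀ j, w (2 * j + 6) = g j := fun j => by
    show (if (2 * j + 1) % 2 = 0 then G ((2 * j + 1) / 2) else g ((2 * j + 1) / 2)) = g j
    rw [if_neg (by omega), show (2 * j + 1) / 2 = j by omega]
  have := h3 (i, φ, ψ) w hw
  simp only [op, e1, e2] at this
  exact this

end Pool.Agent.Lib.MP_5a182c_lc
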