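import Mathlib

/-!
Finite combinatorics for MP_5a182c_lc: pigeonhole, Ramsey's theorem for pairs, and Ramsey's theorem
for pairs of leaves of a complete binary tree.
-/

namespace Pool.Agent.Lib.MP_5a182c_lc

open Finset

/-- Pigeonhole with an increasing enumeration of the large fibre. -/
theorem pigeon {κ : Type} [Fintype κ] (Q r m : ℕ) (hQ : Fintype.card κ ≤ Q) (hm : Q * r ≤ m)
    (g : Fin (m + 1) → κ) :
    ∃ σ : Fin (r + 1) → Fin (m + 1), StrictMono σ ∧ ∀ i j, g (σ i) = g (σ j) := by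
  classical
  have h1 : Fintype.card κ * r < Fintype.card (Fin (m + 1)) := by
    rw [Fintype.card_fin]
    have := Nat.mul_le_mul_right r hQ
    omega
  obtain ⟨k, hk⟩ := Fintype.exists_lt_card_fiber_of_mul_lt_card g h1
  have h2 : r + 1 ≤ (univ.filter fun x => g x = k).card := hk
  refine ⟨fun i => (univ.filter fun x => g x = k).orderEmbOfCardLe h2 i,
    ((univ.filter fun x => g x = k).orderEmbOfCardLe h2).strictMono, fun i j => ?_⟩
  have hi := Finset.orderEmbOfCardLe_mem (univ.filter fun x => g x = k) h2 i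
  have hj := Finset.orderEmbOfCardLe_mem (univ.filter fun x => g x = k) h2 j
  rw [mem_filter] at hi hj
  rw [hi.2, hj.2]

/-- End-homogeneous sets. -/
theorem endHom (κ : Type) [Fintype κ] [Nonempty κ] (r : ℕ) :
    ∃ m0 : ℕ, ∀ (A : Finset ℕ), m0 ≤ A.card → ∀ χ : ℕ → ℕ → κ,
      ∃ B ⊆ A, B.card = r ∧ ∃ col : ℕ → κ, ∀ x ∈ B, ∀ y ∈ B, x < y → χ x y = col x := by
  classical
  induction r with
  | zero => exact ⟨0, fun A _ χ => ⟨∅, empty_subset _, rfl, fun _ => Classical.arbitrary κ,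
      by simp⟩⟩
  | succ r ih =>
    obtain ⟨m0, hm0⟩ := ih
    refine ⟨Fintype.card κ * m0 + 2, fun A hA χ => ?_⟩
    have hne : A.Nonempty := card_pos.1 (by omega)
    set x := A.min' hne with hx
    have hxA : x ∈ A := min'_mem _ _
    have hc : (univ : Finset κ).card * m0 < (A.erase x).card := by
      rw [card_erase_of_mem hxA, card_univ]; omega
    obtain ⟨k, -, hk⟩ := exists_lt_card_fiber_of_mul_lt_card_of_maps_to
      (s := A.erase x) (t := univ) (f := χ x) (fun _ _ => mem_univ _) hc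
    obtain ⟨B, hB, hBc, col, hcol⟩ := hm0 _ hk.le χ
    have hxB : x ∉ B := fun h => by
      have := hB h
      simp at this
    refine ⟨insert x B, ?_, by rw [card_insert_of_notMem hxB, hBc],
      fun z => if z = x then k else col z, ?_⟩
    · intro z hz
      rcases mem_insert.1 hz with rfl | hz
      · exact hxA
      · exact mem_of_mem_erase (mem_filter.1 (hB hz)).1
    · intro a ha b hb hab
      have hbx : b ≠ x := by
        rintro rfl
        have haA : a ∈ A := by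
          rcases mem_insert.1 ha with rfl | ha
          · exact hxA
          · exact mem_of_mem_erase (mem_filter.1 (hB ha)).1
        have := A.min'_le a haA
        omega
      have hbB : b ∈ B := by
        rcases mem_insert.1 hb with h | h
        · exact absurd h hbx
        · exact h
      by_cases hax : a = x
      · subst hax
        simp only [if_true]
        exact (mem_filter.1 (hB hbB)).2
      · have haB : a ∈ B := by
          rcases mem_insert.1 ha with h | h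
          · exact absurd h hax
          · exact h
        simp only [hax, if_false]
        exact hcol a haB b hbB hab

/-- Ramsey's theorem for pairs. -/
theorem ramsey (κ : Type) [Fintype κ] [Nonempty κ] (r : ℕ) :
    ∃ m : ℕ, ∀ χ : Fin (m + 1) → Fin (m + 1) → κ,
      ∃ σ : Fin (r + 1) → Fin (m + 1), StrictMono σ ∧ ∃ k, ∀ i j, i < j → χ (σ i) (σ j) = k := by
  classical
  obtain ⟨m0, hm0⟩ := endHom κ (Fintype.card κ * r + 1)
  refine ⟨m0, fun χ => ?_⟩
  obtain ⟨B, hB, hBc, col, hcol⟩ := hm0 (range (m0 + 1)) (by simp)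
    (fun x y => χ (Fin.ofNat _ x) (Fin.ofNat _ y))
  have hc : (univ : Finset κ).card * r < B.card := by rw [hBc, card_univ]; omega
  obtain ⟨k, -, hk⟩ := exists_lt_card_fiber_of_mul_lt_card_of_maps_to
      (s := B) (t := univ) (f := col) (fun _ _ => mem_univ _) hc
  have h2 : r + 1 ≤ (B.filter fun x => col x = k).card := hk
  let e := (B.filter fun x => col x = k).orderEmbOfCardLe h2
  have he : ∀ i, e i ∈ B ∧ col (e i) = k := fun i =>
    mem_filter.1 (Finset.orderEmbOfCardLe_mem _ h2 i)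
  have hlt : ∀ i, e i < m0 + 1 := fun i => mem_range.1 (hB (he i).1)
  refine ⟨fun i => ⟨e i, hlt i⟩, fun i j hij => e.strictMono hij, k, fun i j hij => ?_⟩
  have := hcol _ (he i).1 _ (he j).1 (e.strictMono hij)
  rw [(he i).2] at this
  rw [← this]
  congr 1
  · exact Fin.ext (Nat.mod_eq_of_lt (hlt i)).symm
  · exact Fin.ext (Nat.mod_eq_of_lt (hlt j)).symm

/-- Leaves of the complete binary tree of depth `D`. -/
def P : ℕ → Type
  | 0 => Unit
  | D + 1 => Bool × P D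

instance P.finite : ∀ D, Finite (P D)
  | 0 => inferInstanceAs (Finite Unit)
  | D + 1 => by
    have := P.finite D
    exact inferInstanceAs (Finite (Bool × P D))

noncomputable instance P.fintype (D : ℕ) : Fintype (P D) := Fintype.ofFinite _

/-- Lexicographic order on leaves. -/
def P.lt : (D : ℕ) → P D → P D → Prop
  | 0, _, _ => False
  | D + 1, σ, τ => (σ.1 = false ∧ τ.1 = true) ∨ (σ.1 = τ.1 ∧ P.lt D σ.2 τ.2)

/-- Embeddings of the binary tree of depth `a` in the binary tree of depth `b`. -/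
inductive Emb : ℕ → ℕ → Type
  | nil : Emb 0 0
  | skip {a b : ℕ} (ε : Bool) (θ : Emb a b) : Emb a (b + 1)
  | split {a b : ℕ} (θ0 θ1 : Emb a b) : Emb (a + 1) (b + 1)

/-- The map on leaves. -/
def Emb.app : {a b : ℕ} → Emb a b → P a → P b
  | _, _, .nil, σ => σ
  | _, _, .skip ε θ, σ => (ε, θ.app σ)
  | _, _, .split θ0 θ1, σ => (σ.1, cond σ.1 (θ1.app σ.2) (θ0.app σ.2))

theorem Emb.app_lt : ∀ {a b : ℕ} (θ : Emb a b) (σ τ : P a),
    P.lt a σ τ → P.lt b (θ.app σ) (θ.app τ)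
  | _, _, .nil, _, _, h => h
  | _, _, .skip _ θ, σ, τ, h => Or.inr ⟨rfl, θ.app_lt σ τ h⟩
  | _, _, .split θ0 θ1, (ε, σ), (δ, τ), h => by
    rcases h with h | ⟨h1, h2⟩
    · exact Or.inl h
    · have h1 : ε = δ := h1
      subst h1
      refine Or.inr ⟨rfl, ?_⟩
      cases ε
      · exact θ0.app_lt σ τ h2
      · exact θ1.app_lt σ τ h2

theorem Emb.exists_comp : ∀ {b c : ℕ} (θ : Emb b c) {a : ℕ} (η : Emb a b),
    ∃ ζ : Emb a c, ∀ σ, ζ.app σ = θ.app (η.app σ)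
  | _, _, .nil, _, η => ⟨η, fun _ => rfl⟩
  | _, _, .skip ε θ, _, η => by
    obtain ⟨ζ, hζ⟩ := θ.exists_comp η
    exact ⟨.skip ε ζ, fun σ => by simp only [Emb.app, hζ]⟩
  | _, _, .split θ0 θ1, _, .skip ε η => by
    cases ε
    · obtain ⟨ζ, hζ⟩ := θ0.exists_comp η
      exact ⟨.skip false ζ, fun σ => by simp only [Emb.app, hζ, cond]⟩
    · obtain ⟨ζ, hζ⟩ := θ1.exists_comp η
      exact ⟨.skip true ζ, fun σ => by simp only [Emb.app, hζ, cond]⟩
  | _, _, .split θ0 θ1, _, .split η0 η1 => by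
    obtain ⟨ζ0, hζ0⟩ := θ0.exists_comp η0
    obtain ⟨ζ1, hζ1⟩ := θ1.exists_comp η1
    refine ⟨.split ζ0 ζ1, fun σ => ?_⟩
    obtain ⟨ε, σ⟩ := σ
    cases ε
    · simp only [Emb.app, hζ0, cond]
    · simp only [Emb.app, hζ1, cond]

theorem Emb.nonempty : ∀ (b a : ℕ), a ≤ b → Nonempty (Emb a b)
  | 0, 0, _ => ⟨.nil⟩
  | b + 1, 0, _ => (Emb.nonempty b 0 (Nat.zero_le _)).map (.skip false)
  | b + 1, a + 1, h => (Emb.nonempty b a (by omega)).map fun θ => .split θ θ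

theorem Emb.exists_leaf : ∀ (b : ℕ) (ρ : P b), ∃ θ : Emb 0 b, ∀ σ, θ.app σ = ρ
  | 0, _ => ⟨.nil, fun _ => rfl⟩
  | b + 1, (ε, ρ) => by
    obtain ⟨θ, hθ⟩ := Emb.exists_leaf b ρ
    exact ⟨.skip ε θ, fun σ => by simp only [Emb.app, hθ]⟩

/-- Pigeonhole for leaves, two colours. -/
theorem leaf2 : ∀ (b a0 a1 : ℕ), a0 + a1 ≤ b → ∀ χ : P b → Bool,
    (∃ θ : Emb a0 b, ∀ σ, χ (θ.app σ) = false) ∨ (∃ θ : Emb a1 b, ∀ σ, χ (θ.app σ) = true) := by
  intro b
  induction b with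
  | zero =>
    intro a0 a1 h χ
    obtain rfl : a0 = 0 := by omega
    obtain rfl : a1 = 0 := by omega
    cases hχ : χ ()
    · exact Or.inl ⟨.nil, fun _ => hχ⟩
    · exact Or.inr ⟨.nil, fun _ => hχ⟩
  | succ b ih =>
    intro a0 a1 h χ
    rcases a0 with _ | x
    · by_cases h0 : ∃ ρ, χ ρ = false
      · obtain ⟨ρ, hρ⟩ := h0
        obtain ⟨θ, hθ⟩ := Emb.exists_leaf _ ρ
        exact Or.inl ⟨θ, fun σ => by rw [hθ, hρ]⟩
      · obtain ⟨θ⟩ := Emb.nonempty (b + 1) a1 (by omega)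
        refine Or.inr ⟨θ, fun σ => ?_⟩
        by_contra hh
        exact h0 ⟨_, by simpa using hh⟩
    · rcases ih x a1 (by omega) (fun σ => χ (false, σ)) with ⟨θ0, h0⟩ | ⟨θ0, h0⟩
      · rcases ih x a1 (by omega) (fun σ => χ (true, σ)) with ⟨θ1, h1⟩ | ⟨θ1, h1⟩
        · refine Or.inl ⟨.split θ0 θ1, fun σ => ?_⟩
          obtain ⟨ε, σ⟩ := σ
          cases ε
          · exact h0 σ
          · exact h1 σ
        · exact Or.inr ⟨.skip true θ1, h1⟩
      · exact Or.inr ⟨.skip false θ0, h0⟩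

/-- Pigeonhole for leaves, finitely many two-colourings at once. -/
theorem leafMany (q a : ℕ) : ∃ b : ℕ, ∀ χ : Fin q → P b → Bool,
    ∃ θ : Emb a b, ∀ i, ∃ k, ∀ σ, χ i (θ.app σ) = k := by
  induction q generalizing a with
  | zero =>
    obtain ⟨θ⟩ := Emb.nonempty a a le_rfl
    exact ⟨a, fun _ => ⟨θ, fun i => i.elim0⟩⟩
  | succ q ih =>
    obtain ⟨b, hb⟩ := ih (a + a)
    refine ⟨b, fun χ => ?_⟩
    obtain ⟨θ, hθ⟩ := hb fun i => χ i.succ
    have : ∃ η : Emb a (a + a), ∃ k, ∀ σ, χ 0 (θ.app (η.app σ)) = k := by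
      rcases leaf2 (a + a) a a le_rfl (fun σ => χ 0 (θ.app σ)) with ⟨η, h⟩ | ⟨η, h⟩
      · exact ⟨η, _, h⟩
      · exact ⟨η, _, h⟩
    obtain ⟨η, k, hk⟩ := this
    obtain ⟨ζ, hζ⟩ := θ.exists_comp η
    refine ⟨ζ, fun i => ?_⟩
    refine Fin.cases ⟨k, fun σ => by rw [hζ, hk]⟩ (fun i => ?_) i
    obtain ⟨k', hk'⟩ := hθ i
    exact ⟨k', fun σ => by rw [hζ, hk']⟩

/-- Product version. -/
theorem leafProd (a : ℕ) : ∃ b : ℕ, ∀ χ : P b → P b → Bool,
    ∃ θ0 θ1 : Emb a b, ∃ k, ∀ σ τ, χ (θ0.app σ) (θ1.app τ) = k := by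
  obtain ⟨b1, hb1⟩ := leafMany (Fintype.card (P (a + a))) a
  refine ⟨b1 + (a + a), fun χ => ?_⟩
  obtain ⟨η0⟩ := Emb.nonempty (b1 + (a + a)) (a + a) (by omega)
  obtain ⟨η1⟩ := Emb.nonempty (b1 + (a + a)) b1 (by omega)
  let e := Fintype.equivFin (P (a + a))
  obtain ⟨θ, hθ⟩ := hb1 fun i τ => χ (η0.app (e.symm i)) (η1.app τ)
  choose k hk using hθ
  have : ∃ η : Emb a (a + a), ∃ k', ∀ σ, k (e (η.app σ)) = k' := by
    rcases leaf2 (a + a) a a le_rfl (fun σ => k (e σ)) with ⟨η, h⟩ | ⟨η, h⟩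
    · exact ⟨η, _, h⟩
    · exact ⟨η, _, h⟩
  obtain ⟨η, k', hk'⟩ := this
  obtain ⟨ζ0, hζ0⟩ := η0.exists_comp η
  obtain ⟨ζ1, hζ1⟩ := η1.exists_comp θ
  refine ⟨ζ0, ζ1, k', fun σ τ => ?_⟩
  rw [hζ0, hζ1, ← hk' σ, ← hk (e (η.app σ)) τ]
  simp

/-- Ramsey's theorem for pairs of leaves, two colours. -/
theorem pair2 : ∀ (s a0 a1 : ℕ), a0 + a1 = s → ∃ b : ℕ, ∀ χ : P b → P b → Bool,
    (∃ θ : Emb a0 b, ∀ σ τ, P.lt a0 σ τ → χ (θ.app σ) (θ.app τ) = false) ∨
    (∃ θ : Emb a1 b, ∀ σ τ, P.lt a1 σ τ → χ (θ.app σ) (θ.app τ) = true) := by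
  intro s
  induction s with
  | zero =>
    intro a0 a1 h
    obtain rfl : a0 = 0 := by omega
    exact ⟨0, fun χ => Or.inl ⟨.nil, fun _ _ h => h.elim⟩⟩
  | succ s ih =>
    intro a0 a1 h
    rcases a0 with _ | x
    · exact ⟨0, fun χ => Or.inl ⟨.nil, fun _ _ h => h.elim⟩⟩
    rcases a1 with _ | y
    · exact ⟨0, fun χ => Or.inr ⟨.nil, fun _ _ h => h.elim⟩⟩
    obtain ⟨b0, hb0⟩ := ih x (y + 1) (by omega)
    obtain ⟨b1, hb1⟩ := ih (x + 1) y (by omega)
    obtain ⟨b, hb⟩ := leafProd (b0 + b1)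
    refine ⟨b + 1, fun χ => ?_⟩
    obtain ⟨θ0, θ1, k, hk⟩ := hb fun σ τ => χ (false, σ) (true, τ)
    cases k
    · obtain ⟨η⟩ := Emb.nonempty (b0 + b1) b0 (by omega)
      obtain ⟨ζ0, hζ0⟩ := θ0.exists_comp η
      obtain ⟨ζ1, hζ1⟩ := θ1.exists_comp η
      rcases hb0 (fun σ τ => χ (false, ζ0.app σ) (false, ζ0.app τ)) with ⟨u0, h0⟩ | ⟨u0, h0⟩
      · rcases hb0 (fun σ τ => χ (true, ζ1.app σ) (true, ζ1.app τ)) with ⟨u1, h1⟩ | ⟨u1, h1⟩
        · obtain ⟨v0, hv0⟩ := ζ0.exists_comp u0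
          obtain ⟨v1, hv1⟩ := ζ1.exists_comp u1
          refine Or.inl ⟨.split v0 v1, ?_⟩
          rintro ⟨ε, σ⟩ ⟨δ, τ⟩ (⟨h2, h3⟩ | ⟨h2, h3⟩)
          · have h2 : ε = false := h2
            have h3 : δ = true := h3
            subst h2 h3
            simp only [Emb.app, cond, hv0, hv1, hζ0, hζ1]
            exact hk _ _
          · have h2 : ε = δ := h2
            subst h2
            cases ε
            · simp only [Emb.app, cond, hv0]
              exact h0 σ τ h3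
            · simp only [Emb.app, cond, hv1]
              exact h1 σ τ h3
        · obtain ⟨v1, hv1⟩ := ζ1.exists_comp u1
          refine Or.inr ⟨.skip true v1, fun σ τ h => ?_⟩
          simp only [Emb.app, hv1]
          exact h1 σ τ h
      · obtain ⟨v0, hv0⟩ := ζ0.exists_comp u0
        refine Or.inr ⟨.skip false v0, fun σ τ h => ?_⟩
        simp only [Emb.app, hv0]
        exact h0 σ τ h
    · obtain ⟨η⟩ := Emb.nonempty (b0 + b1) b1 (by omega)
      obtain ⟨ζ0, hζ0⟩ := θ0.exists_comp η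
      obtain ⟨ζ1, hζ1⟩ := θ1.exists_comp η
      rcases hb1 (fun σ τ => χ (false, ζ0.app σ) (false, ζ0.app τ)) with ⟨u0, h0⟩ | ⟨u0, h0⟩
      · obtain ⟨v0, hv0⟩ := ζ0.exists_comp u0
        refine Or.inl ⟨.skip false v0, fun σ τ h => ?_⟩
        simp only [Emb.app, hv0]
        exact h0 σ τ h
      · rcases hb1 (fun σ τ => χ (true, ζ1.app σ) (true, ζ1.app τ)) with ⟨u1, h1⟩ | ⟨u1, h1⟩
        · obtain ⟨v1, hv1⟩ := ζ1.exists_comp u1
          refine Or.inl ⟨.skip true v1, fun σ τ h => ?_⟩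
          simp only [Emb.app, hv1]
          exact h1 σ τ h
        · obtain ⟨v0, hv0⟩ := ζ0.exists_comp u0
          obtain ⟨v1, hv1⟩ := ζ1.exists_comp u1
          refine Or.inr ⟨.split v0 v1, ?_⟩
          rintro ⟨ε, σ⟩ ⟨δ, τ⟩ (⟨h2, h3⟩ | ⟨h2, h3⟩)
          · have h2 : ε = false := h2
            have h3 : δ = true := h3
            subst h2 h3
            simp only [Emb.app, cond, hv0, hv1, hζ0, hζ1]
            exact hk _ _
          · have h2 : ε = δ := h2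
            subst h2
            cases ε
            · simp only [Emb.app, cond, hv0]
              exact h0 σ τ h3
            · simp only [Emb.app, cond, hv1]
              exact h1 σ τ h3

/-- Ramsey's theorem for pairs of leaves, finitely many two-colourings at once. -/
theorem pairMany (q a : ℕ) : ∃ b : ℕ, ∀ χ : Fin q → P b → P b → Bool,
    ∃ θ : Emb a b, ∀ i, ∃ k, ∀ σ τ, P.lt a σ τ → χ i (θ.app σ) (θ.app τ) = k := by
  induction q generalizing a with
  | zero =>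
    obtain ⟨θ⟩ := Emb.nonempty a a le_rfl
    exact ⟨a, fun _ => ⟨θ, fun i => i.elim0⟩⟩
  | succ q ih =>
    obtain ⟨a', ha'⟩ := pair2 _ a a rfl
    obtain ⟨b, hb⟩ := ih a'
    refine ⟨b, fun χ => ?_⟩
    obtain ⟨θ, hθ⟩ := hb fun i => χ i.succ
    have : ∃ η : Emb a a', ∃ k, ∀ σ τ, P.lt a σ τ →
        χ 0 (θ.app (η.app σ)) (θ.app (η.app τ)) = k := by
      rcases ha' (fun σ τ => χ 0 (θ.app σ) (θ.app τ)) with ⟨η, h⟩ | ⟨η, h⟩
      · exact ⟨η, _, h⟩
      · exact ⟨η, _, h⟩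
    obtain ⟨η, k, hk⟩ := this
    obtain ⟨ζ, hζ⟩ := θ.exists_comp η
    refine ⟨ζ, fun i => ?_⟩
    refine Fin.cases ⟨k, fun σ τ h => by rw [hζ, hζ, hk σ τ h]⟩ (fun i => ?_) i
    obtain ⟨k', hk'⟩ := hθ i
    exact ⟨k', fun σ τ h => by rw [hζ, hζ, hk' _ _ (η.app_lt σ τ h)]⟩

/-- The same with an arbitrary finite index type. -/
theorem pairFin (ι : Type) [Fintype ι] (a : ℕ) : ∃ b : ℕ, ∀ χ : ι → P b → P b → Bool,
    ∃ θ : Emb a b, ∀ i, ∃ k, ∀ σ τ, P.lt a σ τ → χ i (θ.app σ) (θ.app τ) = k := by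
  obtain ⟨b, hb⟩ := pairMany (Fintype.card ι) a
  refine ⟨b, fun χ => ?_⟩
  obtain ⟨θ, hθ⟩ := hb fun i => χ ((Fintype.equivFin ι).symm i)
  refine ⟨θ, fun i => ?_⟩
  simpa using hθ (Fintype.equivFin ι i)

end Pool.Agent.Lib.MP_5a182c_lc
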