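import Mathlib

/-!
Second-order arithmetic: structures, bounded formulas, the axioms of RCA_0, and the principles
CRT^2_2 and COH, read in a structure.
-/

namespace Pool.Agent.Lib.MP_5a182c_lc

/-- Numerical terms; `var i` is the number variable with de Bruijn index `i`. -/
inductive Tm : Type
  | var (i : ℕ)
  | zero
  | one
  | add (s t : Tm)
  | mul (s t : Tm)

/-- Bounded-quantifier formulas of second-order arithmetic.  `mem t j` says that `t` lies in the
`j`-th set variable, and `ball t φ` says that `φ` holds for all `x < t`, where `x` is the number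
variable `0` of `φ` (the other number variables are shifted by one). -/
inductive Bd : Type
  | eq (s t : Tm)
  | lt (s t : Tm)
  | mem (t : Tm) (j : ℕ)
  | not (φ : Bd)
  | and (φ ψ : Bd)
  | ball (t : Tm) (φ : Bd)

/-- A structure for the language of second-order arithmetic: the numbers `M` with `0, 1, +, ·, <`
and the family `S` of subsets of `M` over which the set variables range. -/
structure Str : Type 1 where
  M : Type
  zero : M
  one : M
  add : M → M → M
  mul : M → M → M
  lt : M → M → Prop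
  S : Set (Set M)

/-- Put `a` in front of the sequence `v`. -/
def push {α : Type} (a : α) (v : ℕ → α) : ℕ → α
  | 0 => a
  | i + 1 => v i

/-- The value of a term under an assignment `v` of the number variables. -/
def Tm.val (A : Str) (v : ℕ → A.M) : Tm → A.M
  | .var i => v i
  | .zero => A.zero
  | .one => A.one
  | .add s t => A.add (s.val A v) (t.val A v)
  | .mul s t => A.mul (s.val A v) (t.val A v)

/-- Satisfaction under assignments `V` of the set variables and `v` of the number variables. -/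
def Bd.Sat (A : Str) (V : ℕ → Set A.M) : Bd → (ℕ → A.M) → Prop
  | .eq s t, v => s.val A v = t.val A v
  | .lt s t, v => A.lt (s.val A v) (t.val A v)
  | .mem t j, v => t.val A v ∈ V j
  | .not φ, v => ¬ φ.Sat A V v
  | .and φ ψ, v => φ.Sat A V v ∧ ψ.Sat A V v
  | .ball t φ, v => ∀ a, A.lt a (t.val A v) → φ.Sat A V (push a v)

/-- The `Σ^0_1` formula `∃ y, θ(y, x, parameters)` holds at `x`. -/
def Bd.Sig (A : Str) (V : ℕ → Set A.M) (v : ℕ → A.M) (θ : Bd) (x : A.M) : Prop :=
  ∃ y, θ.Sat A V (push y (push x v))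

/-- The `Π^0_1` formula `∀ y, θ(y, x, parameters)` holds at `x`. -/
def Bd.Pi (A : Str) (V : ℕ → Set A.M) (v : ℕ → A.M) (θ : Bd) (x : A.M) : Prop :=
  ∀ y, θ.Sat A V (push y (push x v))

/-- `A` is a model of `RCA_0`: the basic axioms, `Σ^0_1`-induction and `Δ^0_1`-comprehension, with
number parameters from `M` and set parameters from `S`. -/
structure RCA0 (A : Str) : Prop where
  sets_nonempty : A.S.Nonempty
  succ_ne_zero : ∀ n, A.add n A.one ≠ A.zero
  succ_inj : ∀ m n, A.add m A.one = A.add n A.one → m = n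
  add_zero : ∀ m, A.add m A.zero = m
  add_succ : ∀ m n, A.add m (A.add n A.one) = A.add (A.add m n) A.one
  mul_zero : ∀ m, A.mul m A.zero = A.zero
  mul_succ : ∀ m n, A.mul m (A.add n A.one) = A.add (A.mul m n) m
  not_lt_zero : ∀ m, ¬ A.lt m A.zero
  lt_succ : ∀ m n, A.lt m (A.add n A.one) ↔ A.lt m n ∨ m = n
  sigma_induction : ∀ (θ : Bd) (V : ℕ → Set A.M) (v : ℕ → A.M), (∀ j, V j ∈ A.S) →
    θ.Sig A V v A.zero → (∀ x, θ.Sig A V v x → θ.Sig A V v (A.add x A.one)) →
    ∀ x, θ.Sig A V v x
  delta_comprehension : ∀ (θ η : Bd) (V : ℕ → Set A.M) (v : ℕ → A.M), (∀ j, V j ∈ A.S) →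
    (∀ x, θ.Sig A V v x ↔ η.Pi A V v x) → {x | θ.Sig A V v x} ∈ A.S

/-- The pairing function `(i, j) = (i + j)^2 + i`. -/
def Str.pair (A : Str) (i j : A.M) : A.M := A.add (A.mul (A.add i j) (A.add i j)) i

/-- `X` is finite in the sense of `A`: it is bounded. -/
def Str.Fin (A : Str) (X : Set A.M) : Prop := ∃ b, ∀ y ∈ X, A.lt y b

/-- `c` is the graph of a 2-colouring of pairs: for `x < y` exactly one of `((x, y), 0)` and
`((x, y), 1)` lies in `c`. -/
def Str.IsColoring (A : Str) (c : Set A.M) : Prop :=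
  ∀ x y, A.lt x y → (A.pair (A.pair x y) A.zero ∈ c ↔ A.pair (A.pair x y) A.one ∉ c)

/-- The colouring `c` is stable on `X`. -/
def Str.StableOn (A : Str) (c X : Set A.M) : Prop :=
  ∀ x ∈ X, ∃ i, (i = A.zero ∨ i = A.one) ∧
    ∃ b, ∀ y ∈ X, A.lt b y → A.lt x y ∧ A.pair (A.pair x y) i ∈ c

/-- Cohesive Ramsey's theorem for pairs holds in `A`. -/
def CRT22 (A : Str) : Prop :=
  ∀ c ∈ A.S, A.IsColoring c → ∃ X ∈ A.S, ¬ A.Fin X ∧ A.StableOn c X

/-- The cohesiveness principle holds in `A`; a set `R` codes the sequence of the sets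
`R_i = {y | (y, i) ∈ R}`. -/
def COH (A : Str) : Prop :=
  ∀ R ∈ A.S, ∃ X ∈ A.S, ¬ A.Fin X ∧
    ∀ i, A.Fin (X ∩ {y | A.pair y i ∈ R}) ∨ A.Fin (X \ {y | A.pair y i ∈ R})

end Pool.Agent.Lib.MP_5a182c_lc
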