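import Pool.Agent.Lib.MP_5a182c_lc.Defs

/-!
Weak Koenig's lemma and cohesiveness for finitely many sets, read in a structure.
-/

namespace Pool.Agent.Lib.MP_5a182c_lc

/-- Binary strings are coded by numbers: `0` is the empty string, and the two one-step extensions
of `s` are `2s+1` and `2s+2`. -/
def Str.ch0 (A : Str) (s : A.M) : A.M := A.add (A.add s s) A.one

/-- The second one-step extension `2s+2` of `s`. -/
def Str.ch1 (A : Str) (s : A.M) : A.M := A.add (A.ch0 s) A.one

/-- `T` is a binary tree: it contains every string one of whose one-step extensions it contains. -/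
def Str.IsTree (A : Str) (T : Set A.M) : Prop := ∀ s, A.ch0 s ∈ T ∨ A.ch1 s ∈ T → s ∈ T

/-- Weak Koenig's lemma holds in `A`: every infinite binary tree has a path, that is, a subtree
with the empty string in which every string has exactly one one-step extension. -/
def WKL (A : Str) : Prop :=
  ∀ T ∈ A.S, A.IsTree T → ¬ A.Fin T → ∃ P ∈ A.S, P ⊆ T ∧ A.IsTree P ∧ A.zero ∈ P ∧
    ∀ s ∈ P, (A.ch0 s ∈ P ↔ A.ch1 s ∉ P)

/-- Cohesiveness for finitely many sets `R_i`, `i < a`, holds in `A`. -/
def FinCOH (A : Str) : Prop :=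
  ∀ R ∈ A.S, ∀ a, ∃ X ∈ A.S, ¬ A.Fin X ∧
    ∀ i, A.lt i a → A.Fin (X ∩ {y | A.pair y i ∈ R}) ∨ A.Fin (X \ {y | A.pair y i ∈ R})

end Pool.Agent.Lib.MP_5a182c_lc
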