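import Pool.Agent.Lib.MP_5a182c_lc.Run

/-!
The model: a cut in a countable ultrapower with its coded sets.
-/

namespace Pool.Agent.Lib.MP_5a182c_lc

open Filter

noncomputable section

abbrev UU : Ultrafilter ℕ := hyperfilter ℕ
abbrev Gm : Type := Germ (UU : Filter ℕ) ℕ

theorem ev_gt (k : ℕ) : ∀ᶠ n in (UU : Filter ℕ), k < n :=
  Nat.hyperfilter_le_atTop (eventually_gt_atTop k)

theorem ev_false {p : ℕ → Prop} (h : ∀ᶠ n in (UU : Filter ℕ), p n) (h' : ∀ n, ¬ p n) : False := by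
  obtain ⟨n, hn⟩ := h.exists
  exact h' n hn

/-- Sequences that represent elements of the cut. -/
def Adm (g : ℕ → ℕ) : Prop := g ∈ FF ∧ ∃ k, ∀ᶠ n in (UU : Filter ℕ), g n ≤ LL k n

theorem Adm.of_le {g h : ℕ → ℕ} (hg : g ∈ FF) (hh : Adm h)
    (hle : ∀ᶠ n in (UU : Filter ℕ), g n ≤ h n) : Adm g := by
  obtain ⟨k, hk⟩ := hh.2
  exact ⟨hg, k, by filter_upwards [hle, hk] with n h1 h2 using h1.trans h2⟩

theorem adm_LL (k : ℕ) : Adm (LL k) := ⟨FF_LL k, k, Eventually.of_forall fun _ => le_rfl⟩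

theorem LL_mono {k l : ℕ} (h : k ≤ l) : ∀ᶠ n in (UU : Filter ℕ), LL k n ≤ LL l n := by
  filter_upwards [ev_gt l] with n hn using (SS_le h hn.le).lo_le

theorem reg0 (K : ℕ) : ∃ k, K ≤ k ∧ ∀ n, k < n → (LL k n + 1) * (LL k n + 1) ≤ LL (k + 1) n ∧
    ∀ X, Cof X _ (SS k n).2 → ∃ y ∈ X, LL k n ≤ y ∧ y < LL (k + 1) n := by
  obtain ⟨k, hk, h⟩ := req 0 FF_empty FF_empty FF_empty K
  exact ⟨k, hk, fun n hn => ((h n hn).2.2.2.1 rfl (by simp [decF_encF])).2⟩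

theorem Adm.both {a b : ℕ → ℕ} (ha : Adm a) (hb : Adm b) : ∃ l, ∀ᶠ n in (UU : Filter ℕ),
    ∃ p, a n ≤ p ∧ b n ≤ p ∧ (p + 1) * (p + 1) ≤ LL l n := by
  obtain ⟨k, hk⟩ := ha.2
  obtain ⟨k', hk'⟩ := hb.2
  obtain ⟨l, hl, h⟩ := reg0 (k + k')
  refine ⟨l + 1, ?_⟩
  filter_upwards [hk, hk', LL_mono (show k ≤ l by omega), LL_mono (show k' ≤ l by omega),
    ev_gt l] with n h1 h2 h3 h4 h5
  exact ⟨LL l n, h1.trans h3, h2.trans h4, (h n h5).1⟩

theorem Adm.add {a b : ℕ → ℕ} (ha : Adm a) (hb : Adm b) : Adm (fun n => a n + b n) := by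
  obtain ⟨l, hl⟩ := ha.both hb
  refine ⟨FF_add ha.1 hb.1, l, ?_⟩
  filter_upwards [hl] with n ⟨p, h1, h2, h3⟩
  nlinarith

theorem Adm.mul {a b : ℕ → ℕ} (ha : Adm a) (hb : Adm b) : Adm (fun n => a n * b n) := by
  obtain ⟨l, hl⟩ := ha.both hb
  refine ⟨FF_mul ha.1 hb.1, l, ?_⟩
  filter_upwards [hl] with n ⟨p, h1, h2, h3⟩
  have := Nat.mul_le_mul h1 h2
  nlinarith

theorem adm_zero : Adm fun _ => 0 := ⟨FF_zero, 0, Eventually.of_forall fun _ => Nat.zero_le _⟩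

theorem adm_one : Adm fun _ => 1 := by
  obtain ⟨l, hl⟩ := adm_zero.both adm_zero
  refine ⟨FF_one, l, ?_⟩
  filter_upwards [hl] with n ⟨p, _, _, h3⟩
  nlinarith

theorem Adm.lt_LL {a : ℕ → ℕ} (ha : Adm a) : ∃ l, ∀ᶠ n in (UU : Filter ℕ), a n < LL l n :=
  (ha.add adm_one).2

theorem Adm.lt_HH {a : ℕ → ℕ} (ha : Adm a) (l : ℕ) : ∀ᶠ n in (UU : Filter ℕ), a n < HH l n := by
  obtain ⟨k, hk⟩ := ha.2
  filter_upwards [hk, ev_gt k, ev_gt l] with n h1 h2 h3 using h1.trans_lt (LL_lt_HH h2.le h3.le)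

/-- The numbers of the model. -/
def MM : Type := {x : Gm // ∃ g : ℕ → ℕ, Adm g ∧ x = (g : Gm)}

def el (g : ℕ → ℕ) (h : Adm g) : MM := ⟨(g : Gm), g, h, rfl⟩

/-- The set coded by `G`. -/
def cs (G : ℕ → ℕ) : Set MM := {x | Germ.LiftRel (fun y z => y ∈ decF z) x.1 (G : Gm)}

/-- The model. -/
def AA : Str where
  M := MM
  zero := el _ adm_zero
  one := el _ adm_one
  add x y := ⟨x.1 + y.1, by
    obtain ⟨a, ha, ha'⟩ := x.2
    obtain ⟨b, hb, hb'⟩ := y.2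
    exact ⟨_, ha.add hb, by rw [ha', hb']; rfl⟩⟩
  mul x y := ⟨x.1 * y.1, by
    obtain ⟨a, ha, ha'⟩ := x.2
    obtain ⟨b, hb, hb'⟩ := y.2
    exact ⟨_, ha.mul hb, by rw [ha', hb']; rfl⟩⟩
  lt x y := Germ.LiftRel (· < ·) x.1 y.1
  S := {Y | ∃ G ∈ FF, Y = cs G}

/-- `a` represents `x`. -/
def Rp (x : MM) (a : ℕ → ℕ) : Prop := x.1 = (a : Gm)

theorem rp_el (g : ℕ → ℕ) (h : Adm g) : Rp (el g h) g := rfl
theorem ex_rp (x : MM) : ∃ a, Adm a ∧ Rp x a := x.2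
theorem rp_zero : Rp AA.zero fun _ => 0 := rfl
theorem rp_one : Rp AA.one fun _ => 1 := rfl

theorem Rp.add {x y : MM} {a b : ℕ → ℕ} (ha : Rp x a) (hb : Rp y b) :
    Rp (AA.add x y) fun n => a n + b n := by
  show x.1 + y.1 = _
  rw [show x.1 = _ from ha, show y.1 = _ from hb]
  rfl

theorem Rp.mul {x y : MM} {a b : ℕ → ℕ} (ha : Rp x a) (hb : Rp y b) :
    Rp (AA.mul x y) fun n => a n * b n := by
  show x.1 * y.1 = _
  rw [show x.1 = _ from ha, show y.1 = _ from hb]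
  rfl

theorem Rp.pair {x y : MM} {a b : ℕ → ℕ} (ha : Rp x a) (hb : Rp y b) :
    Rp (AA.pair x y) fun n => prN (a n) (b n) :=
  ((ha.add hb).mul (ha.add hb)).add ha

theorem Rp.eq_iff {x y : MM} {a b : ℕ → ℕ} (ha : Rp x a) (hb : Rp y b) :
    x = y ↔ ∀ᶠ n in (UU : Filter ℕ), a n = b n := by
  refine (Subtype.ext_iff (a1 := x) (a2 := y)).trans ?_
  rw [show x.1 = _ from ha, show y.1 = _ from hb]
  exact Germ.coe_eq

theorem Rp.lt_iff {x y : MM} {a b : ℕ → ℕ} (ha : Rp x a) (hb : Rp y b) :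
    AA.lt x y ↔ ∀ᶠ n in (UU : Filter ℕ), a n < b n := by
  show Germ.LiftRel (· < ·) x.1 y.1 ↔ _
  rw [show x.1 = _ from ha, show y.1 = _ from hb]
  exact Germ.liftRel_coe

theorem Rp.mem_iff {x : MM} {a : ℕ → ℕ} (ha : Rp x a) (G : ℕ → ℕ) :
    x ∈ cs G ↔ ∀ᶠ n in (UU : Filter ℕ), a n ∈ decF (G n) := by
  show Germ.LiftRel (fun y z => y ∈ decF z) x.1 (G : Gm) ↔ _
  rw [show x.1 = _ from ha]
  exact Germ.liftRel_coe

theorem val_los {v : ℕ → MM} {g : ℕ → ℕ → ℕ} (h : ∀ j, Rp (v j) (g j)) (t : Tm) :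
    Rp (t.val AA v) fun n => t.val Nstd fun j => g j n := by
  induction t with
  | var i => exact h i
  | zero => exact rp_zero
  | one => exact rp_one
  | add s t hs ht => exact hs.add ht
  | mul s t hs ht => exact hs.mul ht

theorem push_app (a : ℕ → ℕ) (g : ℕ → ℕ → ℕ) (n : ℕ) :
    (fun j => push a g j n) = push (a n) fun j => g j n := by
  funext j
  cases j <;> rfl

theorem push_all {α β : Type} {p : α → β → Prop} {a : α} {b : β} {v : ℕ → α} {w : ℕ → β}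
    (h : p a b) (h' : ∀ j, p (v j) (w j)) : ∀ j, p (push a v j) (push b w j)
  | 0 => h
  | j + 1 => h' j

theorem push_mem {a : ℕ → ℕ} {g : ℕ → ℕ → ℕ} (h : a ∈ FF) (h' : ∀ j, g j ∈ FF) :
    ∀ j, push a g j ∈ FF
  | 0 => h
  | j + 1 => h' j

theorem FF_mu (φ : Bd) {a : ℕ → ℕ} {g G : ℕ → ℕ → ℕ} (ha : a ∈ FF) (hg : ∀ j, g j ∈ FF)
    (hG : ∀ j, G j ∈ FF) : (fun n => sInf {y | Pr G φ g n (a n) y}) ∈ FF :=
  FF_cl (.inl 8) φ φ ha ha ha ha ha hg hG

theorem sat_los {G : ℕ → ℕ → ℕ} (hG : ∀ j, G j ∈ FF) (φ : Bd) : ∀ {v : ℕ → MM} {g : ℕ → ℕ → ℕ},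
    (∀ j, g j ∈ FF) → (∀ j, Rp (v j) (g j)) →
    (φ.Sat AA (fun j => cs (G j)) v ↔ ∀ᶠ n in (UU : Filter ℕ), SatN G φ g n) := by
  induction φ with
  | eq s t => intro v g _ h; exact (val_los h s).eq_iff (val_los h t)
  | lt s t => intro v g _ h; exact (val_los h s).lt_iff (val_los h t)
  | mem t j => intro v g _ h; exact (val_los h t).mem_iff (G j)
  | not φ ih =>
    intro v g hg h
    exact (not_congr (ih hg h)).trans Ultrafilter.eventually_not.symm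
  | and φ ψ ih1 ih2 =>
    intro v g hg h
    exact (and_congr (ih1 hg h) (ih2 hg h)).trans eventually_and.symm
  | ball t φ ih =>
    intro v g hg h
    have hpush : ∀ (a : ℕ → ℕ) (n : ℕ), SatN G φ (push a g) n ↔
        φ.Sat Nstd (fun j => (decF (G j n) : Set ℕ)) (push (a n) fun j => g j n) := by
      intro a n
      unfold SatN
      rw [push_app]
    constructor
    · intro H
      by_contra hcon
      rw [← Ultrafilter.eventually_not] at hcon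
      have e : ∀ n, push (g 0 n) (fun j => g (j + 1) n) = fun j => g j n := by
        intro n
        funext j
        cases j <;> rfl
      have hw := FF_mu φ.not (g := fun j => g (j + 1)) (hg 0) (fun j => hg _) hG
      set w : ℕ → ℕ := fun n => sInf {y | Pr G φ.not (fun j => g (j + 1)) n (g 0 n) y} with hwdef
      have h1 : ∀ᶠ n in (UU : Filter ℕ), w n < (t.val Nstd fun j => g j n) ∧
          ¬ SatN G φ (push w g) n := by
        filter_upwards [hcon] with n hn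
        have hn : ¬ ∀ a : ℕ, a < (t.val Nstd fun j => g j n) →
          φ.Sat Nstd (fun j => (decF (G j n) : Set ℕ)) (push a fun j => g j n) := hn
        push Not at hn
        obtain ⟨a, ha1, ha2⟩ := hn
        have ha3 : a ∈ {y | Pr G φ.not (fun j => g (j + 1)) n (g 0 n) y} := by
          show ¬ φ.Sat Nstd _ (push a (push (g 0 n) fun j => g (j + 1) n))
          rw [e]
          exact ha2
        refine ⟨(Nat.sInf_le ha3).trans_lt ha1, ?_⟩
        have ha4 : ¬ φ.Sat Nstd _ (push (w n) (push (g 0 n) fun j => g (j + 1) n)) :=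
          Nat.sInf_mem ⟨a, ha3⟩
        rw [e] at ha4
        rw [hpush]
        exact ha4
      obtain ⟨b, hb, hb'⟩ := ex_rp (t.val AA v)
      have h2 := ((val_los h t).eq_iff hb').1 rfl
      have hadm : Adm w := Adm.of_le hw hb (by
        filter_upwards [h1, h2] with n h3 h4 using (h3.1.trans_eq h4).le)
      have h3 := (ih (push_mem hw hg) (push_all (rp_el w hadm) h)).1
        (H (el w hadm) (((rp_el w hadm).lt_iff (val_los h t)).2 (h1.mono fun n hn => hn.1)))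
      exact ev_false (h1.and h3) fun n hn => hn.1.2 hn.2
    · intro H x hx
      obtain ⟨a, ha, ha'⟩ := ex_rp x
      refine (ih (push_mem ha.1 hg) (push_all ha' h)).2 ?_
      filter_upwards [H, (ha'.lt_iff (val_los h t)).1 hx] with n h1 h2
      rw [hpush]
      exact h1 (a n) h2

section

variable {G g : ℕ → ℕ → ℕ} {v : ℕ → MM} (hG : ∀ j, G j ∈ FF) (hg : ∀ j, g j ∈ FF)
  (hv : ∀ j, Rp (v j) (g j))
include hG hg hv

theorem pr_los (φ : Bd) {x y : MM} {a b : ℕ → ℕ} (ha : a ∈ FF) (hb : b ∈ FF) (hx : Rp x a)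
    (hy : Rp y b) : φ.Sat AA (fun j => cs (G j)) (push y (push x v)) ↔
      ∀ᶠ n in (UU : Filter ℕ), Pr G φ g n (a n) (b n) := by
  refine (sat_los hG φ (push_mem hb (push_mem ha hg)) (push_all hy (push_all hx hv))).trans
    (eventually_congr (Eventually.of_forall fun n => ?_))
  unfold SatN Pr
  rw [push_app, push_app]

theorem sig_of (φ : Bd) {x : MM} {a b : ℕ → ℕ} (ha : a ∈ FF) (hb : Adm b) (hx : Rp x a)
    (h : ∀ᶠ n in (UU : Filter ℕ), ∃ y ≤ b n, Pr G φ g n (a n) y) :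
    φ.Sig AA (fun j => cs (G j)) v x := by
  have hw := FF_mu φ ha hg hG
  have hadm := Adm.of_le hw hb (by
    filter_upwards [h] with n ⟨y, h1, h2⟩ using (Nat.sInf_le h2).trans h1)
  refine ⟨el _ hadm, (pr_los hG hg hv φ ha hw hx (rp_el _ hadm)).2 ?_⟩
  filter_upwards [h] with n ⟨y, _, h2⟩
  exact Nat.sInf_mem (s := {y | Pr G φ g n (a n) y}) ⟨y, h2⟩

theorem sig_to (φ : Bd) {x : MM} {a : ℕ → ℕ} (ha : a ∈ FF) (hx : Rp x a)
    (h : φ.Sig AA (fun j => cs (G j)) v x) :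
    ∃ b, Adm b ∧ ∀ᶠ n in (UU : Filter ℕ), Pr G φ g n (a n) (b n) := by
  obtain ⟨y, hy⟩ := h
  obtain ⟨b, hb, hb'⟩ := ex_rp y
  exact ⟨b, hb, (pr_los hG hg hv φ ha hb.1 hx hb').1 hy⟩

theorem ind_aux (θ : Bd) (h0 : θ.Sig AA (fun j => cs (G j)) v AA.zero)
    (hs : ∀ x, θ.Sig AA (fun j => cs (G j)) v x →
      θ.Sig AA (fun j => cs (G j)) v (AA.add x AA.one)) (x : MM) :
    θ.Sig AA (fun j => cs (G j)) v x := by
  classical
  obtain ⟨a, ha, hx⟩ := ex_rp x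
  obtain ⟨k, hk⟩ := ha.lt_LL
  have he : (fun n => encF ((Finset.range (a n + 1)).image fun x =>
      sInf {y | Pr G θ g n x y})) ∈ FF := FF_cl (.inl 10) θ θ ha.1 ha.1 ha.1 ha.1 ha.1 hg hG
  obtain ⟨l, hl, hQ⟩ := req 0 he he he k
  have h1 : ∀ᶠ n in (UU : Filter ℕ), ∀ x ≤ a n, ¬ In (SS (l + 1) n).2 (sInf {y | Pr G θ g n x y}) := by
    filter_upwards [hk, LL_mono hl, ev_gt l] with n h1 h2 h3 x hx
    have h4 := ((hQ n h3).2.2.2.1 rfl (by
      rw [decF_encF]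
      refine Finset.card_image_le.trans ?_
      rw [Finset.card_range]
      exact h1.trans_le h2)).1
    rw [decF_encF] at h4
    exact h4 _ (Finset.mem_image_of_mem _ (Finset.mem_range.2 (by omega)))
  rcases UU.em (fun n => ∃ y < LL (l + 1) n, Pr G θ g n (a n) y) with h2 | h2
  · exact sig_of hG hg hv θ ha.1 (adm_LL (l + 1)) hx (h2.mono fun n ⟨y, h3, h4⟩ => ⟨y, h3.le, h4⟩)
  exfalso
  have hx0 : (fun n => sInf {x | ¬ ∃ y < LL (l + 1) n, Pr G θ g n x y}) ∈ FF :=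
    FF_cl (.inl 11) θ θ (FF_LL (l + 1)) ha.1 ha.1 ha.1 ha.1 hg hG
  set x0 : ℕ → ℕ := fun n => sInf {x | ¬ ∃ y < LL (l + 1) n, Pr G θ g n x y} with hx0def
  have h3 : ∀ᶠ n in (UU : Filter ℕ), x0 n ≤ a n ∧ ¬ ∃ y < LL (l + 1) n, Pr G θ g n (x0 n) y := by
    filter_upwards [h2] with n hn
    exact ⟨Nat.sInf_le hn,
      Nat.sInf_mem (s := {x | ¬ ∃ y < LL (l + 1) n, Pr G θ g n x y}) ⟨a n, hn⟩⟩
  have hadm : Adm x0 := Adm.of_le hx0 ha (h3.mono fun n hn => hn.1)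
  have h4 : θ.Sig AA (fun j => cs (G j)) v (el x0 hadm) := by
    rcases UU.em (fun n => x0 n = 0) with h5 | h5
    · rw [((rp_el x0 hadm).eq_iff rp_zero).2 h5]
      exact h0
    · have hadm1 : Adm fun n => x0 n - 1 :=
        Adm.of_le (FF_pred hx0) hadm (Eventually.of_forall fun n => Nat.sub_le _ _)
      rw [((rp_el x0 hadm).eq_iff ((rp_el _ hadm1).add rp_one)).2
        (h5.mono fun n hn => by omega)]
      refine hs _ (sig_of hG hg hv θ hadm1.1 (adm_LL (l + 1)) (rp_el _ hadm1) ?_)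
      filter_upwards [h5] with n hn
      have h6 : x0 n - 1 ∉ {x | ¬ ∃ y < LL (l + 1) n, Pr G θ g n x y} :=
        Nat.notMem_of_lt_sInf (show x0 n - 1 < x0 n by omega)
      obtain ⟨y, h7, h8⟩ := not_not.1 h6
      exact ⟨y, h7.le, h8⟩
  obtain ⟨b, hb, hb'⟩ := sig_to hG hg hv θ hx0 (rp_el x0 hadm) h4
  refine ev_false (h1.and (h3.and (hb'.and (hb.lt_HH (l + 1))))) fun n ⟨h5, h6, h7, h8⟩ => ?_
  refine h6.2 ⟨sInf {y | Pr G θ g n (x0 n) y}, ?_,
    Nat.sInf_mem (s := {y | Pr G θ g n (x0 n) y}) ⟨b n, h7⟩⟩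
  by_contra h9
  exact h5 _ h6.1 ⟨not_lt.1 h9, (Nat.sInf_le h7).trans_lt h8⟩

theorem comp_aux (θ η : Bd) (h : ∀ x, θ.Sig AA (fun j => cs (G j)) v x ↔
      η.Pi AA (fun j => cs (G j)) v x) : {x | θ.Sig AA (fun j => cs (G j)) v x} ∈ AA.S := by
  classical
  have hX : (fun n => encF ((Finset.range (HH 0 n)).filter fun x =>
      ∃ y, Pr G θ g n x y ∧ ∀ y' < y, Pr G η g n x y')) ∈ FF :=
    FF_cl (.inl 9) θ η (FF_HH 0) FF_id FF_id FF_id FF_id hg hG
  refine ⟨_, hX, Set.ext fun x => ?_⟩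
  obtain ⟨a, ha, hx⟩ := ex_rp x
  refine Iff.trans ?_ (hx.mem_iff _).symm
  simp only [decF_encF, Finset.mem_filter, Finset.mem_range]
  constructor
  · intro h1
    obtain ⟨b, hb, hb'⟩ := sig_to hG hg hv θ ha.1 hx h1
    have h2 : ∀ᶠ n in (UU : Filter ℕ), ∀ y' < b n, Pr G η g n (a n) y' := by
      by_contra hcon
      rw [← Ultrafilter.eventually_not] at hcon
      obtain ⟨y, hy⟩ := sig_of hG hg hv η.not ha.1 hb hx (by
        filter_upwards [hcon] with n hn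
        push Not at hn
        obtain ⟨y, h3, h4⟩ := hn
        exact ⟨y, h3.le, h4⟩)
      exact hy ((h x).1 h1 y)
    filter_upwards [hb', h2, ha.lt_HH 0] with n h3 h4 h5 using ⟨h5, b n, h3, h4⟩
  · intro h1
    by_contra hcon
    have h2 : η.not.Sig AA (fun j => cs (G j)) v x := by
      by_contra h3
      exact hcon ((h x).2 fun y => not_not.1 fun h4 => h3 ⟨y, h4⟩)
    obtain ⟨b, hb, hb'⟩ := sig_to hG hg hv η.not ha.1 hx h2
    refine hcon (sig_of hG hg hv θ ha.1 hb hx ?_)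
    filter_upwards [h1, hb'] with n ⟨_, y, h3, h4⟩ h5
    refine ⟨y, ?_, h3⟩
    by_contra h6
    exact h5 (h4 _ (not_le.1 h6))

end

theorem AA_rca : RCA0 AA where
  sets_nonempty := ⟨cs id, id, FF_id, rfl⟩
  succ_ne_zero x h := by
    obtain ⟨a, -, ha⟩ := ex_rp x
    exact ev_false (((ha.add rp_one).eq_iff rp_zero).1 h) fun n => by omega
  succ_inj x y h := by
    obtain ⟨a, -, ha⟩ := ex_rp x
    obtain ⟨b, -, hb⟩ := ex_rp y
    exact (ha.eq_iff hb).2 ((((ha.add rp_one).eq_iff (hb.add rp_one)).1 h).mono fun n => by omega)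
  add_zero x := by
    obtain ⟨a, -, ha⟩ := ex_rp x
    exact ((ha.add rp_zero).eq_iff ha).2 (Eventually.of_forall fun n => rfl)
  add_succ x y := by
    obtain ⟨a, -, ha⟩ := ex_rp x
    obtain ⟨b, -, hb⟩ := ex_rp y
    exact ((ha.add (hb.add rp_one)).eq_iff ((ha.add hb).add rp_one)).2
      (Eventually.of_forall fun n => rfl)
  mul_zero x := by
    obtain ⟨a, -, ha⟩ := ex_rp x
    exact ((ha.mul rp_zero).eq_iff rp_zero).2 (Eventually.of_forall fun n => rfl)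
  mul_succ x y := by
    obtain ⟨a, -, ha⟩ := ex_rp x
    obtain ⟨b, -, hb⟩ := ex_rp y
    exact ((ha.mul (hb.add rp_one)).eq_iff ((ha.mul hb).add ha)).2
      (Eventually.of_forall fun n => rfl)
  not_lt_zero x h := by
    obtain ⟨a, -, ha⟩ := ex_rp x
    exact ev_false ((ha.lt_iff rp_zero).1 h) fun n => by omega
  lt_succ x y := by
    obtain ⟨a, -, ha⟩ := ex_rp x
    obtain ⟨b, -, hb⟩ := ex_rp y
    exact (ha.lt_iff (hb.add rp_one)).trans (((eventually_congr (Eventually.of_forall fun n =>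
      by omega)).trans Ultrafilter.eventually_or).trans
      (or_congr (ha.lt_iff hb) (ha.eq_iff hb)).symm)
  sigma_induction θ V v hV h0 hs x := by
    choose G hG hG' using hV
    choose g hg hg' using fun j => ex_rp (v j)
    obtain rfl : V = fun j => cs (G j) := funext hG'
    exact ind_aux hG (fun j => (hg j).1) hg' θ h0 hs x
  delta_comprehension θ η V v hV h := by
    choose G hG hG' using hV
    choose g hg hg' using fun j => ex_rp (v j)
    obtain rfl : V = fun j => cs (G j) := funext hG'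
    exact comp_aux hG (fun j => (hg j).1) hg' θ η h

theorem not_fin (Y : ℕ → Set ℕ) (k : ℕ) (hY : ∀ᶠ n in (UU : Filter ℕ), Cof (Y n) _ (SS k n).2)
    (hmin : ∀ b ∈ FF, (fun n => sInf {y | y ∈ Y n ∧ b n ≤ y}) ∈ FF) (Z : Set MM)
    (hZ : ∀ x a, Adm a → Rp x a → (∀ᶠ n in (UU : Filter ℕ), a n ∈ Y n) → x ∈ Z) : ¬ AA.Fin Z := by
  rintro ⟨x, hx⟩
  obtain ⟨b, hb, hb'⟩ := ex_rp x
  obtain ⟨k', hk'⟩ := hb.2
  obtain ⟨l, hl, h⟩ := reg0 (k + k')
  have h1 : ∀ᶠ n in (UU : Filter ℕ), ∃ y, (y ∈ Y n ∧ b n ≤ y) ∧ y < LL (l + 1) n := by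
    filter_upwards [hY, hk', LL_mono (show k' ≤ l by omega), ev_gt l] with n h1 h2 h3 h4
    obtain ⟨y, h5, h6, h7⟩ := (h n h4).2 _ ((SS_le (show k ≤ l by omega) h4.le).cof _ h1)
    exact ⟨y, ⟨h5, h2.trans (h3.trans h6)⟩, h7⟩
  have hadm := Adm.of_le (hmin b hb.1) (adm_LL (l + 1)) (by
    filter_upwards [h1] with n ⟨y, h2, h3⟩ using (Nat.sInf_le h2).trans h3.le)
  have h2 : ∀ᶠ n in (UU : Filter ℕ), sInf {y | y ∈ Y n ∧ b n ≤ y} ∈ {y | y ∈ Y n ∧ b n ≤ y} := by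
    filter_upwards [h1] with n ⟨y, h2, _⟩
    exact Nat.sInf_mem (s := {y | y ∈ Y n ∧ b n ≤ y}) ⟨y, h2⟩
  have h3 := ((rp_el _ hadm).lt_iff hb').1
    (hx _ (hZ _ _ hadm (rp_el _ hadm) (h2.mono fun n hn => hn.1)))
  exact ev_false (h2.and h3) fun n hn => absurd hn.1.2 (not_le.2 hn.2)

theorem AA_crt : CRT22 AA := by
  rintro c ⟨C, hC, rfl⟩ hcol
  obtain ⟨k, -, hQ⟩ := req 2 hC hC hC 0
  refine ⟨cs (Out k), ⟨_, FF_Out k, rfl⟩, not_fin (fun n => decF (Out k n)) (k + 1) ?_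
    (fun b hb => FF_cl5 (.inl 13) (FF_Out k) hb hb hb hb) _
    (fun x a _ hx h => (hx.mem_iff _).2 h), fun x hx => ?_⟩
  · filter_upwards [ev_gt k] with n hn using ((hQ n hn).2.2.2.2.2.1 rfl).1
  obtain ⟨a, ha, ha'⟩ := ex_rp x
  obtain ⟨k', hk'⟩ := ha.lt_LL
  obtain ⟨l, hl, hQ'⟩ := req 1 (FF_Out k) hC ha.1 (k + 1 + k')
  have h1 : ∀ᶠ n in (UU : Filter ℕ), ∃ b, ∀ y ∈ decF (Out k n), In (SS (l + 1) n).2 y →
      colOf (C n) (a n) y = b := by
    filter_upwards [(ha'.mem_iff _).1 hx, hk', LL_mono (show k' ≤ l by omega), ev_gt l]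
      with n h1 h2 h3 h4
    exact (hQ' n h4).2.2.2.2.1 rfl ((SS_le (show k + 1 ≤ l by omega) h4.le).ta _ _ _
      (((hQ n (by omega)).2.2.2.2.2.1 rfl).2 _ h1)) (h2.trans_le h3)
  have h2 : ∃ b, ∀ᶠ n in (UU : Filter ℕ), ∀ y ∈ decF (Out k n), In (SS (l + 1) n).2 y →
      colOf (C n) (a n) y = b := by
    have h3 := h1.mono fun n hn => Bool.exists_bool.1 hn
    rcases Ultrafilter.eventually_or.1 h3 with h4 | h4
    · exact ⟨_, h4⟩
    · exact ⟨_, h4⟩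
  obtain ⟨b, hb⟩ := h2
  have key : ∀ y ∈ cs (Out k), AA.lt (el _ (adm_LL (l + 1))) y → AA.lt x y ∧
      (AA.pair (AA.pair x y) AA.one ∈ cs C ↔ b = true) := by
    intro y hy hlt
    obtain ⟨β, hβ, hβ'⟩ := ex_rp y
    have h3 := ((rp_el _ (adm_LL (l + 1))).lt_iff hβ').1 hlt
    refine ⟨(ha'.lt_iff hβ').2 ?_, ?_⟩
    · filter_upwards [hk', LL_mono (show k' ≤ l + 1 by omega), h3] with n h4 h5 h6
      omega
    · have h4 : ∀ᶠ n in (UU : Filter ℕ), prN (prN (a n) (β n)) 1 ∈ decF (C n) ↔ b = true := by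
        filter_upwards [hb, h3, (hβ'.mem_iff _).1 hy, hβ.lt_HH (l + 1)] with n h5 h6 h7 h8
        rw [← h5 _ h7 ⟨h6.le, h8⟩]
        simp [colOf]
      exact (((ha'.pair hβ').pair rp_one).mem_iff C).trans
        ((eventually_congr h4).trans eventually_const)
  cases b
  · refine ⟨AA.zero, Or.inl rfl, _, fun y hy hlt => ⟨(key y hy hlt).1, ?_⟩⟩
    exact (hcol x y (key y hy hlt).1).2 fun h => by simpa using (key y hy hlt).2.1 h
  · exact ⟨AA.one, Or.inr rfl, _, fun y hy hlt => ⟨(key y hy hlt).1, (key y hy hlt).2.2 rfl⟩⟩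

theorem AA_not_coh : ¬ COH AA := by
  classical
  intro H
  have hR : (fun n => encF (((Finset.range (HH 0 n) ×ˢ Finset.range (HH 0 n)).filter
      fun q => q.2.testBit (fc n q.1) = true).image fun q => prN q.1 q.2)) ∈ FF :=
    FF_cl5 (.inl 12) FF_id (FF_HH 0) FF_id FF_id FF_id
  obtain ⟨X, ⟨G, hG, rfl⟩, hinf, hcoh⟩ := H _ ⟨_, hR, rfl⟩
  obtain ⟨k, -, hQ⟩ := req 3 hG hG hG 0
  have h1 := (ev_gt k).mono fun n hn => (hQ n hn).2.2.2.2.2.2 rfl
  rcases Ultrafilter.eventually_or.1 h1 with h2 | h2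
  · refine hinf ⟨el _ (adm_LL (k + 1)), fun y hy => ?_⟩
    obtain ⟨β, hβ, hβ'⟩ := ex_rp y
    refine (hβ'.lt_iff (rp_el _ _)).2 ?_
    filter_upwards [h2, (hβ'.mem_iff _).1 hy, hβ.lt_HH (k + 1)] with n h3 h4 h5
    by_contra h6
    exact h3 _ h4 ⟨not_lt.1 h6, h5⟩
  · have hadm : Adm (Out k) := ⟨FF_Out k, 0, h2.mono fun n hn => hn.1.le.trans (init_lo n)⟩
    have key : ∀ y β, Adm β → Rp y β → (AA.pair y (el _ hadm) ∈ cs (fun n => encF
        (((Finset.range (HH 0 n) ×ˢ Finset.range (HH 0 n)).filter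
        fun q => q.2.testBit (fc n q.1) = true).image fun q => prN q.1 q.2)) ↔
        ∀ᶠ n in (UU : Filter ℕ), (Out k n).testBit (fc n (β n)) = true) := by
      intro y β hβ hβ'
      refine ((hβ'.pair (rp_el _ hadm)).mem_iff _).trans (eventually_congr ?_)
      filter_upwards [hβ.lt_HH 0, hadm.lt_HH 0] with n h3 h4
      rw [decF_encF, Finset.mem_image]
      constructor
      · rintro ⟨⟨p, q⟩, h5, h6⟩
        obtain ⟨rfl, rfl⟩ := prN_inj h6
        exact (Finset.mem_filter.1 h5).2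
      · intro h5
        exact ⟨(β n, Out k n), Finset.mem_filter.2 ⟨Finset.mem_product.2
          ⟨Finset.mem_range.2 h3, Finset.mem_range.2 h4⟩, h5⟩, rfl⟩
    rcases hcoh (el _ hadm) with h3 | h3
    · refine not_fin (fun n => {y ∈ (decF (G n) : Set ℕ) | (Out k n).testBit (fc n y) = true})
        (k + 1) (h2.mono fun n hn => hn.2.1)
        (fun b hb => FF_cl5 (.inl 14) hG hb (FF_Out k) FF_id hb) _ (fun x a ha hx h => ?_) h3
      exact ⟨(hx.mem_iff _).2 (h.mono fun n hn => hn.1),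
        (key x a ha hx).2 (h.mono fun n hn => hn.2)⟩
    · refine not_fin (fun n => {y ∈ (decF (G n) : Set ℕ) | (Out k n).testBit (fc n y) = false})
        (k + 1) (h2.mono fun n hn => hn.2.2)
        (fun b hb => FF_cl5 (.inl 15) hG hb (FF_Out k) FF_id hb) _ (fun x a ha hx h => ?_) h3
      refine ⟨(hx.mem_iff _).2 (h.mono fun n hn => hn.1), fun h4 => ?_⟩
      exact ev_false (h.and ((key x a ha hx).1 h4)) fun n hn => by
        have := hn.1.2
        rw [hn.2] at this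
        exact absurd this (by simp)

end

end Pool.Agent.Lib.MP_5a182c_lc
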