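import Pool.Agent.Lib.MP_5a182c_lc.Model
import Pool.Agent.Lib.MP_5a182c_lc.Defs2

/-!
The model satisfies weak Koenig's lemma, and cohesiveness fails in it for finitely many sets.
-/

namespace Pool.Agent.Lib.MP_5a182c_lc

open Filter

noncomputable section

/-- `x` is an initial segment of `s`. -/
def Anc (x s : ℕ) : Prop := ∃ j, (s + 1) / 2 ^ j = x + 1

theorem div_pow_succ (m j : ℕ) : m / 2 ^ (j + 1) = m / 2 ^ j / 2 := by
  rw [pow_succ, Nat.div_div_eq_div_mul]

theorem div_pow_lt {m i j : ℕ} (h : i < j) : m / 2 ^ j ≤ m / 2 ^ i / 2 := by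
  rw [← div_pow_succ]
  exact Nat.div_le_div_left (Nat.pow_le_pow_right (by norm_num) h) (by positivity)

theorem anc_zero (s : ℕ) : Anc 0 s := by
  refine ⟨Nat.log 2 (s + 1), ?_⟩
  have h1 := Nat.pow_log_le_self 2 (show s + 1 ≠ 0 by omega)
  have h2 := Nat.lt_pow_succ_log_self (show 1 < 2 by norm_num) (s + 1)
  rw [pow_succ] at h2
  exact Nat.div_eq_of_lt_le (by omega) (by omega)

theorem anc_parent {x s : ℕ} (h : Anc (x + x + 1) s ∨ Anc (x + x + 1 + 1) s) : Anc x s := by
  rcases h with ⟨j, hj⟩ | ⟨j, hj⟩ <;> exact ⟨j + 1, by rw [div_pow_succ]; omega⟩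

theorem anc_child {x s : ℕ} (h : Anc x s) (hx : x < s) :
    Anc (x + x + 1) s ↔ ¬ Anc (x + x + 1 + 1) s := by
  constructor
  · rintro ⟨i, hi⟩ ⟨j, hj⟩
    rcases lt_trichotomy i j with h1 | rfl | h1
    · have := div_pow_lt (m := s + 1) h1
      omega
    · omega
    · have := div_pow_lt (m := s + 1) h1
      omega
  · intro h1
    obtain ⟨j, hj⟩ := h
    rcases j with _ | j
    · simp only [pow_zero, Nat.div_one] at hj
      omega
    rw [div_pow_succ] at hj
    by_contra h2
    have h3 : (s + 1) / 2 ^ j ≠ x + x + 1 + 1 := fun h => h2 ⟨j, h⟩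
    have h4 : (s + 1) / 2 ^ j ≠ x + x + 1 + 1 + 1 := fun h => h1 ⟨j, h⟩
    omega

/-- `s` lies in `X`, and `X` is a tree below `s`. -/
def Good (X : Set ℕ) (s : ℕ) : Prop :=
  s ∈ X ∧ ∀ t < s, t + t + 1 ∈ X ∨ t + t + 1 + 1 ∈ X → t ∈ X

theorem Good.anc {X : Set ℕ} {s : ℕ} (h : Good X s) {x : ℕ} (hx : Anc x s) : x ∈ X := by
  obtain ⟨j, hj⟩ := hx
  induction j generalizing x with
  | zero =>
    simp only [pow_zero, Nat.div_one] at hj
    obtain rfl : x = s := by omega
    exact h.1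
  | succ j ih =>
    rw [div_pow_succ] at hj
    have h1 : (s + 1) / 2 ^ j ≤ s + 1 := Nat.div_le_self _ _
    refine h.2 x (by omega) ?_
    rcases (show (s + 1) / 2 ^ j = x + x + 1 + 1 ∨ (s + 1) / 2 ^ j = x + x + 1 + 1 + 1 by omega)
      with h2 | h2
    · exact Or.inl (ih h2)
    · exact Or.inr (ih h2)

theorem anc_iff (x s : ℕ) : Anc x s ↔ ∃ p, (∀ k < p, ∀ e < p + 1, ¬ (k + k + 1 + 1 + 1) * e = p) ∧
    ¬ s + 1 < (x + 1) * p ∧ s + 1 < (x + 1 + 1) * p := by
  constructor
  · rintro ⟨j, hj⟩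
    have hp : 0 < 2 ^ j := by positivity
    refine ⟨2 ^ j, fun k _ e _ h => ?_, ?_, ?_⟩
    · have h1 : k + k + 1 + 1 + 1 ∣ 2 ^ j := ⟨e, h.symm⟩
      obtain ⟨i, -, hi⟩ := (Nat.dvd_prime_pow Nat.prime_two).1 h1
      rcases i with _ | i
      · simp only [pow_zero] at hi
        omega
      · rw [pow_succ] at hi
        omega
    · rw [← hj]
      exact not_lt.2 (Nat.div_mul_le_self _ _)
    · exact (Nat.div_lt_iff_lt_mul hp).1 (by omega)
  · rintro ⟨p, h1, h2, h3⟩
    have hp : p ≠ 0 := by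
      rintro rfl
      simp at h3
    obtain ⟨j, m, ⟨k, rfl⟩, hm⟩ := Nat.exists_eq_two_pow_mul_odd hp
    have hj : 0 < 2 ^ j := by positivity
    rcases k with _ | k
    · simp only [mul_zero, zero_add, mul_one] at hm
      subst hm
      exact ⟨j, Nat.div_eq_of_lt_le (not_lt.1 h2) h3⟩
    · exact absurd (by rw [hm]; ring) (h1 k (by rw [hm]; nlinarith) (2 ^ j) (by rw [hm]; nlinarith))

/-- The formula saying that the variable `0` is good for the set variable `0`. -/
def goodF : Bd :=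
  .and (.mem (.var 0) 0) (.ball (.var 0) (.not (.and
    (.not (.and (.not (.mem (.add (.add (.var 0) (.var 0)) .one) 0))
      (.not (.mem (.add (.add (.add (.var 0) (.var 0)) .one) .one) 0))))
    (.not (.mem (.var 0) 0)))))

theorem goodF_std (V : ℕ → Set ℕ) (v : ℕ → ℕ) : goodF.Sat Nstd V v ↔ Good (V 0) (v 0) := by
  simp only [goodF, Bd.Sat, Tm.val, push, Good]
  refine and_congr_right fun _ => forall_congr' fun t => imp_congr_right fun _ => ?_
  tauto

/-- The formula saying that all good numbers below the variable `1` are below the variable `0`. -/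
def topF : Bd := .ball (.var 1) (.not (.and (.not (.lt (.var 0) (.var 1))) goodF))

theorem topF_std (V : ℕ → Set ℕ) (v : ℕ → ℕ) (x y : ℕ) :
    topF.Sat Nstd V (push y (push x v)) ↔ ∀ z < x, Good (V 0) z → z < y := by
  simp only [topF, Bd.Sat, Tm.val, push, goodF_std]
  refine forall_congr' fun t => imp_congr_right fun _ => ?_
  tauto

/-- The formula behind `anc_iff`. -/
def ancF : Bd :=
  .and (.ball (.var 0) (.ball (.add (.var 1) .one) (.not (.eq
      (.mul (.add (.add (.add (.add (.var 1) (.var 1)) .one) .one) .one) (.var 0)) (.var 2)))))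
    (.and (.not (.lt (.add (.var 2) .one) (.mul (.add (.var 1) .one) (.var 0))))
      (.lt (.add (.var 2) .one) (.mul (.add (.add (.var 1) .one) .one) (.var 0))))

theorem ancF_std (V : ℕ → Set ℕ) (v : ℕ → ℕ) (x : ℕ) :
    (∃ y, ancF.Sat Nstd V (push y (push x v)) ∧
      ∀ y' < y, (Bd.eq .zero .zero).Sat Nstd V (push y' (push x v))) ↔ Anc x (v 0) := by
  rw [anc_iff]
  simp only [ancF, Bd.Sat, Tm.val, push, implies_true, and_true]

theorem AA_wkl : WKL AA := by
  classical
  rintro T ⟨G, hG, rfl⟩ hT hinf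
  have hw : (fun n => sInf {y | Pr (fun _ => G) topF (fun _ => id) n (HH 0 n) y}) ∈ FF :=
    FF_mu topF (FF_HH 0) (fun _ => FF_id) fun _ => hG
  have hs := FF_pred hw
  set s : ℕ → ℕ := fun n => sInf {y | Pr (fun _ => G) topF (fun _ => id) n (HH 0 n) y} - 1
    with hsdef
  have key : ∀ a, Adm a → ∀ᶠ n in (UU : Filter ℕ), a n < s n ∧ Good (decF (G n)) (s n) := by
    intro a ha
    have h0 : ¬ ∀ y ∈ cs G, AA.lt y (AA.add (el a ha) AA.one) := fun h => hinf ⟨_, h⟩
    push Not at h0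
    obtain ⟨y, hy, hy'⟩ := h0
    obtain ⟨b, hb, hb'⟩ := ex_rp y
    have h1 : ∀ᶠ n in (UU : Filter ℕ), ¬ b n < a n + 1 := Ultrafilter.eventually_not.2
      fun h => hy' ((hb'.lt_iff ((rp_el a ha).add rp_one)).2 h)
    have h2 := (sat_los (G := fun _ => G) (fun _ => hG) goodF (v := fun _ => y)
      (g := fun _ => b) (fun _ => hb.1) fun _ => hb').1 ⟨hy, fun t _ h =>
        h.2 (hT t (by
          by_contra h3
          exact h.1 ⟨fun h4 => h3 (Or.inl h4), fun h4 => h3 (Or.inr h4)⟩))⟩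
    filter_upwards [h1, h2, hb.lt_HH 0] with n h3 h4 h5
    have h6 : Good (decF (G n)) (b n) := (goodF_std _ _).1 h4
    have e : {y | Pr (fun _ => G) topF (fun _ => id) n (HH 0 n) y} =
        {y | ∀ z < HH 0 n, Good (decF (G n)) z → z < y} := Set.ext fun y => topF_std _ _ _ _
    have h7 : ∀ z < HH 0 n, Good (decF (G n)) z →
        z < sInf {y | ∀ z < HH 0 n, Good (decF (G n)) z → z < y} :=
      Nat.sInf_mem (s := {y | ∀ z < HH 0 n, Good (decF (G n)) z → z < y})
        ⟨HH 0 n, fun z hz _ => hz⟩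
    have h8 := h7 _ h5 h6
    have h9 : s n = sInf {y | ∀ z < HH 0 n, Good (decF (G n)) z → z < y} - 1 := by
      simp only [hsdef, e]
    have h10 : s n ∉ {y | ∀ z < HH 0 n, Good (decF (G n)) z → z < y} :=
      Nat.notMem_of_lt_sInf (by omega)
    refine ⟨by omega, ?_⟩
    by_contra h11
    refine h10 fun z hz hz' => ?_
    have h12 := h7 z hz hz'
    rcases (show z < s n ∨ z = s n by omega) with h13 | rfl
    · exact h13
    · exact absurd hz' h11
  have hP : (fun n => encF ((Finset.range (HH 0 n)).filter fun x =>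
      ∃ y, Pr (fun _ => G) ancF (fun _ => s) n x y ∧
        ∀ y' < y, Pr (fun _ => G) (.eq .zero .zero) (fun _ => s) n x y')) ∈ FF :=
    FF_cl (.inl 9) ancF (.eq .zero .zero) (FF_HH 0) FF_id FF_id FF_id FF_id (fun _ => hs)
      fun _ => hG
  have mem : ∀ {x a}, Adm a → Rp x a → (x ∈ cs (fun n => encF ((Finset.range (HH 0 n)).filter
      fun x => ∃ y, Pr (fun _ => G) ancF (fun _ => s) n x y ∧
        ∀ y' < y, Pr (fun _ => G) (.eq .zero .zero) (fun _ => s) n x y')) ↔
      ∀ᶠ n in (UU : Filter ℕ), Anc (a n) (s n)) := by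
    intro x a ha hx
    refine (hx.mem_iff _).trans (eventually_congr ?_)
    filter_upwards [ha.lt_HH 0] with n hn
    rw [decF_encF, Finset.mem_filter, Finset.mem_range]
    exact (and_iff_right hn).trans (ancF_std _ _ _)
  refine ⟨_, ⟨_, hP, rfl⟩, fun x hx => ?_, fun x hx => ?_, ?_, fun x hx => ?_⟩
  · obtain ⟨a, ha, ha'⟩ := ex_rp x
    refine (ha'.mem_iff G).2 ?_
    filter_upwards [(mem ha ha').1 hx, key a ha] with n h1 h2 using h2.2.anc h1
  · obtain ⟨a, ha, ha'⟩ := ex_rp x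
    have h0 := (ha.add ha).add adm_one
    have h0' := (ha'.add ha').add rp_one
    refine (mem ha ha').2 ?_
    rcases hx with h | h
    · exact ((mem h0 h0').1 h).mono fun n hn => anc_parent (Or.inl hn)
    · exact ((mem (h0.add adm_one) (h0'.add rp_one)).1 h).mono fun n hn => anc_parent (Or.inr hn)
  · exact (mem adm_zero rp_zero).2 (Eventually.of_forall fun n => anc_zero _)
  · obtain ⟨a, ha, ha'⟩ := ex_rp x
    have h0 := (ha.add ha).add adm_one
    have h0' := (ha'.add ha').add rp_one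
    refine (mem h0 h0').trans (Iff.trans ?_
      (not_congr (mem (h0.add adm_one) (h0'.add rp_one))).symm)
    refine (eventually_congr ?_).trans Ultrafilter.eventually_not
    filter_upwards [(mem ha ha').1 hx, key a ha] with n h1 h2 using anc_child h1 h2.1

theorem AA_not_fincoh : ¬ FinCOH AA := by
  classical
  intro H
  have hR : (fun n => encF (((Finset.range (HH 0 n) ×ˢ Finset.range (HH 0 n)).filter
      fun q => q.2.testBit (fc n q.1) = true).image fun q => prN q.1 q.2)) ∈ FF :=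
    FF_cl5 (.inl 12) FF_id (FF_HH 0) FF_id FF_id FF_id
  obtain ⟨X, ⟨G, hG, rfl⟩, hinf, hcoh⟩ := H _ ⟨_, hR, rfl⟩ (el _ (adm_LL 0))
  obtain ⟨k, -, hQ⟩ := req 3 hG hG hG 0
  have h1 := (ev_gt k).mono fun n hn => (hQ n hn).2.2.2.2.2.2 rfl
  rcases Ultrafilter.eventually_or.1 h1 with h2 | h2
  · refine hinf ⟨el _ (adm_LL (k + 1)), fun y hy => ?_⟩
    obtain ⟨β, hβ, hβ'⟩ := ex_rp y
    refine (hβ'.lt_iff (rp_el _ _)).2 ?_
    filter_upwards [h2, (hβ'.mem_iff _).1 hy, hβ.lt_HH (k + 1)] with n h3 h4 h5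
    by_contra h6
    exact h3 _ h4 ⟨not_lt.1 h6, h5⟩
  · have hadm : Adm (Out k) := ⟨FF_Out k, 0, h2.mono fun n hn => hn.1.le.trans (init_lo n)⟩
    have hlt : AA.lt (el _ hadm) (el _ (adm_LL 0)) := ((rp_el _ hadm).lt_iff (rp_el _ _)).2
      (h2.mono fun n hn => hn.1.trans_le (init_lo n))
    have key : ∀ y β, Adm β → Rp y β → (AA.pair y (el _ hadm) ∈ cs (fun n => encF
        (((Finset.range (HH 0 n) ×ˢ Finset.range (HH 0 n)).filter
        fun q => q.2.testBit (fc n q.1) = true).image fun q => prN q.1 q.2)) ↔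
        ∀ᶠ n in (UU : Filter ℕ), (Out k n).testBit (fc n (β n)) = true) := by
      intro y β hβ hβ'
      refine ((hβ'.pair (rp_el _ hadm)).mem_iff _).trans (eventually_congr ?_)
      filter_upwards [hβ.lt_HH 0, hadm.lt_HH 0] with n h3 h4
      rw [decF_encF, Finset.mem_image]
      constructor
      · rintro ⟨⟨p, q⟩, h5, h6⟩
        obtain ⟨rfl, rfl⟩ := prN_inj h6
        exact (Finset.mem_filter.1 h5).2
      · intro h5
        exact ⟨(β n, Out k n), Finset.mem_filter.2 ⟨Finset.mem_product.2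
          ⟨Finset.mem_range.2 h3, Finset.mem_range.2 h4⟩, h5⟩, rfl⟩
    rcases hcoh (el _ hadm) hlt with h3 | h3
    · refine not_fin (fun n => {y ∈ (decF (G n) : Set ℕ) | (Out k n).testBit (fc n y) = true})
        (k + 1) (h2.mono fun n hn => hn.2.1)
        (fun b hb => FF_cl5 (.inl 14) hG hb (FF_Out k) FF_id hb) _ (fun x a ha hx h => ?_) h3
      exact ⟨(hx.mem_iff _).2 (h.mono fun n hn => hn.1),
        (key x a ha hx).2 (h.mono fun n hn => hn.2)⟩
    · refine not_fin (fun n => {y ∈ (decF (G n) : Set ℕ) | (Out k n).testBit (fc n y) = false})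
        (k + 1) (h2.mono fun n hn => hn.2.2)
        (fun b hb => FF_cl5 (.inl 15) hG hb (FF_Out k) FF_id hb) _ (fun x a ha hx h => ?_) h3
      refine ⟨(hx.mem_iff _).2 (h.mono fun n hn => hn.1), fun h4 => ?_⟩
      exact ev_false (h.and ((key x a ha hx).1 h4)) fun n hn => by
        have := hn.1.2
        rw [hn.2] at this
        exact absurd this (by simp)

end

end Pool.Agent.Lib.MP_5a182c_lc
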