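import Pool.Agent.Lib.MP_5a182c_lc.Steps
import Pool.Agent.Lib.MP_5a182c_lc.Closure

/-!
The sequence of refinements that determines the cut.
-/

namespace Pool.Agent.Lib.MP_5a182c_lc

open Filter

noncomputable section

/-- Depth and branching for `d` further steps. -/
def par : ℕ → ℕ × (ℕ → ℕ)
  | 0 => (0, fun _ => 0)
  | d + 1 => ((all_steps (par d).1 (par d).2).choose,
      (all_steps (par d).1 (par d).2).choose_spec.choose)

def Dep (d : ℕ) : ℕ := (par d).1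
def Br (d : ℕ) : ℕ → ℕ := (par d).2

/-- States. -/
def St : Type := Σ d : ℕ, T (Dep d)

instance : Countable St := inferInstanceAs (Countable (Σ d : ℕ, T (Dep d)))

def Ok (s : St) : Prop := WF (Br s.1) (Dep s.1) s.2

def na (n : ℕ) : ℕ := 2 ^ Dep n

def init (n : ℕ) : St := ⟨n, (exists_tree (Br n) (Dep n) (2 ^ na n)).choose⟩

instance : Nonempty St := ⟨init 0⟩

theorem init_ok (n : ℕ) : Ok (init n) := (exists_tree (Br n) (Dep n) (2 ^ na n)).choose_spec.1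
theorem init_lo (n : ℕ) : 2 ^ na n ≤ lo (init n).2 :=
  (exists_tree (Br n) (Dep n) (2 ^ na n)).choose_spec.2

def fc (n : ℕ) : ℕ → ℕ := (exists_col _ _ (init_ok n)).choose
theorem fc_lt (n y : ℕ) : fc n y < na n := (exists_col _ _ (init_ok n)).choose_spec.1 y
theorem fc_div (n : ℕ) : Div (fc n) _ (init n).2 := (exists_col _ _ (init_ok n)).choose_spec.2

def prN (i j : ℕ) : ℕ := (i + j) * (i + j) + i

theorem prN_inj {i j k l : ℕ} (h : prN i j = prN k l) : i = k ∧ j = l := by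
  unfold prN at h
  have h1 : i + j = k + l := by
    rcases lt_trichotomy (i + j) (k + l) with h1 | h1 | h1
    · exfalso
      have : (i + j + 1) * (i + j + 1) ≤ (k + l) * (k + l) := Nat.mul_le_mul h1 h1
      nlinarith
    · exact h1
    · exfalso
      have : (k + l + 1) * (k + l + 1) ≤ (i + j) * (i + j) := Nat.mul_le_mul h1 h1
      nlinarith
  rw [h1] at h
  omega

def colOf (c x y : ℕ) : Bool := decide (prN (prN x y) 1 ∈ decF c)

/-- The specification of one step. -/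
def Q (κ : Fin 4) (n : ℕ) (s : St) (a b c : ℕ) (p : St × ℕ) : Prop :=
  p.1.1 + 1 = s.1 ∧ Ok p.1 ∧ Le p.1.2 s.2 ∧
  (κ = 0 → (decF a).card ≤ lo s.2 → (∀ y ∈ decF a, ¬ In p.1.2 y) ∧
    (lo s.2 + 1) * (lo s.2 + 1) ≤ lo p.1.2 ∧
    ∀ X, Cof X _ s.2 → ∃ y ∈ X, lo s.2 ≤ y ∧ y < lo p.1.2) ∧
  (κ = 1 → TA (colOf b c) c (decF a) _ s.2 → c < lo s.2 →
    ∃ k, ∀ y ∈ decF a, In p.1.2 y → colOf b c y = k) ∧
  (κ = 2 → Cof (decF p.2) _ p.1.2 ∧ ∀ x ∈ decF p.2, TA (colOf a x) x (decF p.2) _ p.1.2) ∧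
  (κ = 3 → (∀ y ∈ decF a, ¬ In p.1.2 y) ∨ (p.2 < 2 ^ na n ∧
    Cof {y ∈ (decF a : Set ℕ) | p.2.testBit (fc n y) = true} _ p.1.2 ∧
    Cof {y ∈ (decF a : Set ℕ) | p.2.testBit (fc n y) = false} _ p.1.2))

theorem exQ (κ : Fin 4) (n : ℕ) (s : St) (a b c : ℕ) (hs : Ok s) (h0 : s.1 ≠ 0)
    (hle : Le s.2 (init n).2) : ∃ p, Q κ n s a b c p := by
  obtain ⟨d, t⟩ := s
  rcases d with _ | d
  · exact absurd rfl h0
  obtain ⟨h1, h2, h3, h4⟩ := (all_steps (par d).1 (par d).2).choose_spec.choose_spec t hs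
  have hd : ∃ t' : T (Dep d), WF (Br d) (Dep d) t' ∧ Le t' t := by
    obtain ⟨t', h5, h6, -⟩ := h1 ∅ (by simp)
    exact ⟨t', h5, h6⟩
  obtain ⟨t0, h01, h02⟩ := hd
  fin_cases κ
  · by_cases hc : (decF a).card ≤ lo t
    · obtain ⟨t', h5, h6, h7⟩ := h1 _ hc
      exact ⟨(⟨d, t'⟩, 0), rfl, h5, h6, fun _ _ => h7, by simp, by simp, by simp⟩
    · exact ⟨(⟨d, t0⟩, 0), rfl, h01, h02, fun _ h => absurd h hc, by simp, by simp, by simp⟩
  · by_cases hc : TA (colOf b c) c (decF a) _ t ∧ c < lo t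
    · obtain ⟨t', h5, h6, h7⟩ := h2 _ _ _ hc.1 hc.2
      exact ⟨(⟨d, t'⟩, 0), rfl, h5, h6, by simp, fun _ _ _ => h7, by simp, by simp⟩
    · exact ⟨(⟨d, t0⟩, 0), rfl, h01, h02, by simp, fun _ h h' => absurd ⟨h, h'⟩ hc, by simp,
        by simp⟩
  · obtain ⟨t', X, h5, h6, h7⟩ := h3 (colOf a)
    refine ⟨(⟨d, t'⟩, encF X), rfl, h5, h6, by simp, by simp, fun _ => ?_, by simp⟩
    simp only [decF_encF]
    exact h7
  · obtain ⟨t', h5, h6, h7⟩ := h4 (fc n) (na n) (decF a) (fc_lt n)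
      ((Nat.lt_two_pow_self.le.trans (init_lo n)).trans hle.lo_le) (hle.div _ (fc_div n))
    rcases h7 with h7 | ⟨i, h7⟩
    · exact ⟨(⟨d, t'⟩, 0), rfl, h5, h6, by simp, by simp, by simp, fun _ => Or.inl h7⟩
    · exact ⟨(⟨d, t'⟩, i), rfl, h5, h6, by simp, by simp, by simp, fun _ => Or.inr h7⟩

def step (κ : Fin 4) (n : ℕ) (s : St) (a b c : ℕ) : St × ℕ := Classical.epsilon (Q κ n s a b c)

def encS : St → ℕ := (exists_injective_nat St).choose
def decS : ℕ → St := Function.invFun encS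
theorem decS_encS (s : St) : decS (encS s) = s :=
  Function.leftInverse_invFun (exists_injective_nat St).choose_spec s

open Classical in
/-- The operations under which the model is closed. -/
def sh : ℕ ⊕ (Fin 4 × Bool) → Shape
  | .inl 0 => fun _ _ _ _ _ _ _ => 0
  | .inl 1 => fun _ _ _ _ _ _ _ => 1
  | .inl 2 => fun a b _ _ _ _ _ => a + b
  | .inl 3 => fun a b _ _ _ _ _ => a * b
  | .inl 4 => fun a _ _ _ _ _ _ => a - 1
  | .inl 5 => fun a _ _ _ _ _ _ => encS (init a)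
  | .inl 6 => fun a _ _ _ _ _ _ => lo (decS a).2
  | .inl 7 => fun a _ _ _ _ _ _ => hi (decS a).2
  | .inl 8 => fun a _ _ _ _ P _ => sInf {y | P a y}
  | .inl 9 => fun a _ _ _ _ P R =>
      encF ((Finset.range a).filter fun x => ∃ y, P x y ∧ ∀ y' < y, R x y')
  | .inl 10 => fun a _ _ _ _ P _ => encF ((Finset.range (a + 1)).image fun x => sInf {y | P x y})
  | .inl 11 => fun a _ _ _ _ P _ => sInf {x | ¬ ∃ y < a, P x y}
  | .inl 12 => fun a b _ _ _ _ _ => encF (((Finset.range b ×ˢ Finset.range b).filter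
      fun q => q.2.testBit (fc a q.1) = true).image fun q => prN q.1 q.2)
  | .inl 13 => fun a b _ _ _ _ _ => sInf {y | y ∈ (decF a : Set ℕ) ∧ b ≤ y}
  | .inl 14 => fun a b c d _ _ _ =>
      sInf {y | y ∈ {y ∈ (decF a : Set ℕ) | c.testBit (fc d y) = true} ∧ b ≤ y}
  | .inl 15 => fun a b c d _ _ _ =>
      sInf {y | y ∈ {y ∈ (decF a : Set ℕ) | c.testBit (fc d y) = false} ∧ b ≤ y}
  | .inl _ => fun _ _ _ _ _ _ _ => encF ∅
  | .inr (κ, true) => fun a b c d e _ _ => encS (step κ a (decS b) c d e).1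
  | .inr (κ, false) => fun a b c d e _ _ => (step κ a (decS b) c d e).2

/-- The countable set of sequences from which the model is made. -/
def FF : Set (ℕ → ℕ) := (closure _ sh).choose

theorem FF_countable : FF.Countable := (closure _ sh).choose_spec.1
theorem FF_id : id ∈ FF := (closure _ sh).choose_spec.2.1

theorem FF_cl (i) (φ ψ : Bd) {a b c d e : ℕ → ℕ} {g G : ℕ → ℕ → ℕ} (ha : a ∈ FF) (hb : b ∈ FF)
    (hc : c ∈ FF) (hd : d ∈ FF) (he : e ∈ FF) (hg : ∀ j, g j ∈ FF) (hG : ∀ j, G j ∈ FF) :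
    (fun n => sh i (a n) (b n) (c n) (d n) (e n) (Pr G φ g n) (Pr G ψ g n)) ∈ FF :=
  (closure _ sh).choose_spec.2.2 i φ ψ a b c d e g G ha hb hc hd he hg hG

theorem FF_cl5 (i) {a b c d e : ℕ → ℕ} (ha : a ∈ FF) (hb : b ∈ FF)
    (hc : c ∈ FF) (hd : d ∈ FF) (he : e ∈ FF) :
    (fun n => sh i (a n) (b n) (c n) (d n) (e n) (Pr (fun _ => id) (.eq .zero .zero) (fun _ => id) n)
      (Pr (fun _ => id) (.eq .zero .zero) (fun _ => id) n)) ∈ FF :=
  FF_cl i _ _ ha hb hc hd he (fun _ => FF_id) fun _ => FF_id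

theorem FF_zero : (fun _ => 0) ∈ FF := FF_cl5 (.inl 0) FF_id FF_id FF_id FF_id FF_id
theorem FF_one : (fun _ => 1) ∈ FF := FF_cl5 (.inl 1) FF_id FF_id FF_id FF_id FF_id
theorem FF_empty : (fun _ => encF ∅) ∈ FF := FF_cl5 (.inl 16) FF_id FF_id FF_id FF_id FF_id
theorem FF_add {a b : ℕ → ℕ} (ha : a ∈ FF) (hb : b ∈ FF) : (fun n => a n + b n) ∈ FF :=
  FF_cl5 (.inl 2) ha hb ha ha ha
theorem FF_mul {a b : ℕ → ℕ} (ha : a ∈ FF) (hb : b ∈ FF) : (fun n => a n * b n) ∈ FF :=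
  FF_cl5 (.inl 3) ha hb ha ha ha
theorem FF_pred {a : ℕ → ℕ} (ha : a ∈ FF) : (fun n => a n - 1) ∈ FF :=
  FF_cl5 (.inl 4) ha ha ha ha ha

/-- Requirements. -/
def Req : Type := Fin 4 × FF × FF × FF

instance : Countable Req := by
  have := FF_countable.to_subtype
  exact inferInstanceAs (Countable (Fin 4 × FF × FF × FF))

instance : Nonempty Req := ⟨(0, ⟨id, FF_id⟩, ⟨id, FF_id⟩, ⟨id, FF_id⟩)⟩

def enum (k : ℕ) : Req := (exists_surjective_nat Req).choose (Nat.unpair k).1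

theorem enum_often (q : Req) (K : ℕ) : ∃ k, K ≤ k ∧ enum k = q := by
  obtain ⟨i, hi⟩ := (exists_surjective_nat Req).choose_spec q
  exact ⟨Nat.pair i K, Nat.right_le_pair _ _, by simp only [enum, Nat.unpair_pair, hi]⟩

def nextp (k n : ℕ) (s : St) : St × ℕ :=
  step (enum k).1 n s ((enum k).2.1.1 n) ((enum k).2.2.1.1 n) ((enum k).2.2.2.1 n)

/-- The state after `k` steps at index `n`. -/
def SS : ℕ → ℕ → St
  | 0, n => init n
  | k + 1, n => (nextp k n (SS k n)).1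

def Out (k n : ℕ) : ℕ := (nextp k n (SS k n)).2
def LL (k n : ℕ) : ℕ := lo (SS k n).2
def HH (k n : ℕ) : ℕ := hi (SS k n).2

theorem SS_inv (n : ℕ) : ∀ k, k ≤ n →
    (SS k n).1 + k = n ∧ Ok (SS k n) ∧ Le (SS k n).2 (init n).2
  | 0, _ => ⟨rfl, init_ok n, Le.refl _⟩
  | k + 1, hk => by
    obtain ⟨h1, h2, h3⟩ := SS_inv n k (by omega)
    have h4 := Classical.epsilon_spec (exQ (enum k).1 n (SS k n) ((enum k).2.1.1 n)
      ((enum k).2.2.1.1 n) ((enum k).2.2.2.1 n) h2 (by omega) h3)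
    have h5 : (SS (k + 1) n).1 + 1 = (SS k n).1 := h4.1
    exact ⟨by omega, h4.2.1, h4.2.2.1.trans h3⟩

theorem SS_Q {k n : ℕ} (hk : k < n) : Q (enum k).1 n (SS k n) ((enum k).2.1.1 n)
    ((enum k).2.2.1.1 n) ((enum k).2.2.2.1 n) (SS (k + 1) n, Out k n) := by
  obtain ⟨h1, h2, h3⟩ := SS_inv n k hk.le
  exact Classical.epsilon_spec (exQ (enum k).1 n (SS k n) ((enum k).2.1.1 n)
      ((enum k).2.2.1.1 n) ((enum k).2.2.2.1 n) h2 (by omega) h3)

theorem SS_le {k l n : ℕ} (hkl : k ≤ l) (hl : l ≤ n) : Le (SS l n).2 (SS k n).2 := by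
  induction l, hkl using Nat.le_induction with
  | base => exact Le.refl _
  | succ l _ ih => exact (SS_Q (k := l) (by omega)).2.2.1.trans (ih (by omega))

theorem LL_lt_HH {k l n : ℕ} (hk : k ≤ n) (hl : l ≤ n) : LL k n < HH l n := by
  rcases le_total k l with h | h
  · exact (SS_le h hl).lo_le.trans_lt (SS_inv n l hl).2.1.lt
  · exact (SS_inv n k hk).2.1.lt.trans_le (SS_le h hk).hi_le

theorem FF_SS : ∀ k, (fun n => encS (SS k n)) ∈ FF
  | 0 => FF_cl5 (.inl 5) FF_id FF_id FF_id FF_id FF_id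
  | k + 1 => by
    have := FF_cl5 (.inr ((enum k).1, true)) FF_id (FF_SS k) (enum k).2.1.2 (enum k).2.2.1.2
      (enum k).2.2.2.2
    simp only [sh, decS_encS] at this
    exact this

theorem FF_Out (k : ℕ) : Out k ∈ FF := by
  have := FF_cl5 (.inr ((enum k).1, false)) FF_id (FF_SS k) (enum k).2.1.2 (enum k).2.2.1.2
    (enum k).2.2.2.2
  simp only [sh, decS_encS] at this
  exact this

theorem FF_LL (k : ℕ) : LL k ∈ FF := by
  have h : (fun n => lo (decS (encS (SS k n))).2) ∈ FF :=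
    FF_cl5 (.inl 6) (FF_SS k) FF_id FF_id FF_id FF_id
  have e : (fun n => lo (decS (encS (SS k n))).2) = LL k :=
    funext fun n => congrArg (fun s : St => lo s.2) (decS_encS _)
  exact e ▸ h

theorem FF_HH (k : ℕ) : HH k ∈ FF := by
  have h : (fun n => hi (decS (encS (SS k n))).2) ∈ FF :=
    FF_cl5 (.inl 7) (FF_SS k) FF_id FF_id FF_id FF_id
  have e : (fun n => hi (decS (encS (SS k n))).2) = HH k :=
    funext fun n => congrArg (fun s : St => hi s.2) (decS_encS _)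
  exact e ▸ h

theorem req (κ : Fin 4) {a b c : ℕ → ℕ} (ha : a ∈ FF) (hb : b ∈ FF) (hc : c ∈ FF) (K : ℕ) :
    ∃ k, K ≤ k ∧ ∀ n, k < n → Q κ n (SS k n) (a n) (b n) (c n) (SS (k + 1) n, Out k n) := by
  obtain ⟨k, hk, he⟩ := enum_often (κ, ⟨a, ha⟩, ⟨b, hb⟩, ⟨c, hc⟩) K
  refine ⟨k, hk, fun n hn => ?_⟩
  have := SS_Q hn
  rw [he] at this
  exact this

end

end Pool.Agent.Lib.MP_5a182c_lc
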