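import Pool.Agent.Lib.MP_5a182c_lc.Tree

/-!
The four refinement steps on trees, and the initial tree.
-/

namespace Pool.Agent.Lib.MP_5a182c_lc

variable {B B' : ℕ → ℕ}

/-- The step that produces a set on which a colouring of pairs will be stable. -/
theorem crt_step (D' : ℕ) (B' : ℕ → ℕ) : ∃ (D : ℕ) (B : ℕ → ℕ), ∀ t : T D, WF B D t →
    ∀ c : ℕ → ℕ → Bool, ∃ t' : T D', WF B' D' t' ∧ Le t' t ∧
      (∀ τ y, Lv D' t' τ y → ∃ τ0, Lv D t τ0 y) ∧
      ∀ X, Sub X t' → ∀ x ∈ X, In t' x → TA (c x) x X D' t' := by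
  classical
  induction D' with
  | zero => exact ⟨0, B', fun t ht c => ⟨t, ht, Le.refl t, fun τ y h => ⟨τ, h⟩,
      fun _ _ _ _ _ => trivial⟩⟩
  | succ D' ih =>
    obtain ⟨D1, B1, h1⟩ := ih
    obtain ⟨D2, hD2⟩ := pairFin (Option (Bool × Bool) × Bool) D1
    have hR := fun p => ramsey (Option (Bool × Bool) → P D2 → P D2 → Bool) (B' p + 1)
    choose R hR using hR
    let Kf : ℕ → ℕ := fun p => (Finset.range (p + 1)).sup
      fun q => Fintype.card (Fin (R q + 1) × Bool × P D2)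
    have hKf : Monotone Kf := fun p q hpq =>
      Finset.sup_mono (Finset.range_mono (by omega))
    obtain ⟨B2, hB2⟩ := unif D2 B1 Kf hKf
    obtain ⟨B3, hB3⟩ := unif D2 B2 id monotone_id
    refine ⟨D2 + 1, fun p => B3 p + R p, fun t ht c => ?_⟩
    have ht0 : WF B3 (D2 + 1) t := ht.mono fun p => Nat.le_add_right _ _
    have hRle : R (lo t) + 1 ≤ br t + 1 := by
      have := ht.2.1
      simp only at this
      omega
    let u : Fin (R (lo t) + 1) → Fin (br t + 1) := Fin.castLE hRle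
    have hu : StrictMono u := Fin.strictMono_castLE hRle
    have f1 := fun i ε => hB3 (ch t (u i) ε) (ht0.ch _ ε) (Fin (lo (ch t (u i) ε)))
      (by simp) (fun y z => c z y)
    choose w1 hw11 hw12 hw13 hw14 using f1
    have f2 := fun i ε => hB2 (w1 i ε) (hw11 i ε) (Fin (R (lo t) + 1) × Bool × P D2)
      (Finset.le_sup (f := fun q => Fintype.card (Fin (R q + 1) × Bool × P D2))
        (Finset.mem_range.2 (Nat.lt_succ_of_le
          ((ht0.lo_lt (u i) ε).le.trans (hw12 i ε).lo_le))))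
      (fun x z => c x (rep D2 (w1 z.1 z.2.1) z.2.2))
    choose w2 hw21 hw22 hw23 hw24 using f2
    let G : Fin (R (lo t) + 1) → Bool → Fin (R (lo t) + 1) → Bool → P D2 → P D2 → Bool :=
      fun i ε j δ σ τ => c (rep D2 (w2 i ε) σ) (rep D2 (w1 j δ) τ)
    have hG : ∀ i ε j δ, Bef i ε j δ → ∀ σ τ x y, Lv D2 (w2 i ε) σ x → Lv D2 (w2 j δ) τ y →
        c x y = G i ε j δ σ τ := by
      intro i ε j δ hb σ τ x y hx hy
      have hb' : Bef (u i) ε (u j) δ := by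
        rcases hb with hb | ⟨hb, hb'⟩
        · exact Or.inl (hu hb)
        · exact Or.inr ⟨congrArg u hb, hb'⟩
      have hxl : x < lo (ch t (u j) δ) :=
        (((hw22 i ε).trans (hw12 i ε)).in (Lv.in (hw21 i ε) hx)).2.trans_le
          (ht0.2.2.2 _ _ _ _ hb')
      have e1 := congrFun (hw14 j δ τ y _ (hw23 j δ τ y hy) (lv_rep D2 _ τ)) ⟨x, hxl⟩
      have e2 := congrFun (hw24 i ε σ x _ hx (lv_rep D2 _ σ)) (j, δ, τ)
      exact e1.trans e2
    obtain ⟨s, hs, Gh, hGh⟩ := hR (lo t) fun i j o => match o with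
      | none => G i false i true
      | some p => G i p.1 j p.2
    let s' : Fin (B' (lo t) + 1) → Fin (R (lo t) + 1) := fun i => s i.castSucc
    have hs' : StrictMono s' := fun i j hij => hs (Fin.castSucc_lt_castSucc_iff.2 hij)
    have hG' : ∀ i ε j δ, Bef i ε j δ → ∃ o, G (s' i) ε (s' j) δ = Gh o := by
      intro i ε j δ hb
      rcases hb with hb | ⟨rfl, rfl, rfl⟩
      · exact ⟨some (ε, δ), congrFun (hGh _ _ (Fin.castSucc_lt_castSucc_iff.2 hb)) (some (ε, δ))⟩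
      · exact ⟨none, congrFun (hGh _ _ (Fin.castSucc_lt_last i)) none⟩
    obtain ⟨θ, hθ⟩ := hD2 fun o σ τ => cond o.2 (Gh o.1 σ τ) (Gh o.1 τ σ)
    have f3 := fun i ε => restrict θ (w2 (s' i) ε) (hw21 _ ε)
    choose w3 hw31 hw32 hw33 using f3
    have f4 := fun i ε => h1 (w3 i ε) (hw31 i ε) c
    choose w4 hw41 hw42 hw43 hw44 using f4
    obtain ⟨h2, h3⟩ := node ht0 (B' := B') le_rfl (u ∘ s') (hu.comp hs') w4 hw41
      (fun i ε => (hw42 i ε).trans ((hw32 i ε).trans ((hw22 _ ε).trans (hw12 _ ε))))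
    refine ⟨_, h2, h3, ?_, ?_⟩
    · rintro ⟨ε, τ⟩ y ⟨i, hy⟩
      obtain ⟨τ0, h0⟩ := hw43 i ε τ y hy
      exact ⟨(ε, θ.app τ0), u (s' i), hw13 _ _ _ _ (hw23 _ _ _ _ (hw33 i ε τ0 y h0))⟩
    · intro X hX x hx hxin
      refine ⟨fun h => absurd hxin.1 (not_le.2 h), fun j δ => ?_⟩
      obtain ⟨⟨ε, σ⟩, i, hi⟩ := hX x hx hxin
      have hi : Lv D' (w4 i ε) σ x := hi
      have hxi : In (w4 i ε) x := Lv.in (hw41 i ε) hi
      show TA (c x) x X D' (w4 j δ)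
      rcases bef_tri i ε j δ with ⟨rfl, rfl⟩ | hb | hb
      · exact hw44 i ε X (hX.ch h2 i ε) x hx hxi
      · obtain ⟨σ0, hσ0⟩ := hw43 i ε σ x hi
        obtain ⟨o, ho⟩ := hG' i ε j δ hb
        obtain ⟨k1, hk1⟩ := hθ (o, true)
        obtain ⟨k2, hk2⟩ := hθ (o, false)
        have hb' : Bef (s' i) ε (s' j) δ := by
          rcases hb with hb | ⟨hb, hb'⟩
          · exact Or.inl (hs' hb)
          · exact Or.inr ⟨congrArg s' hb, hb'⟩
        refine TA.congr (X' := {y ∈ X | In (w4 j δ) y}) (hw41 j δ) (fun y hy hy' => ⟨hy, hy'⟩)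
          ((hw42 j δ).ta _ _ _ (TA.of_cut (k1 := k1) (k2 := k2) σ0 (hw31 j δ) ?_ ?_))
        · rintro y ⟨hy, hy'⟩ -
          obtain ⟨τ, hτ⟩ := hX.ch h2 j δ y hy hy'
          exact hw43 j δ τ y hτ
        · intro τ y hy
          have := hG _ _ _ _ hb' _ _ x y (hw33 i ε σ0 x hσ0) (hw33 j δ τ y hy)
          rw [this, ho]
          exact ⟨fun h => hk1 _ _ h, fun h => hk2 _ _ h⟩
      · refine TA.of_ge (hw41 j δ) ((h2.2.2.2 j δ i ε hb).trans hxi.1)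

theorem crt_step' (D' : ℕ) (B' : ℕ → ℕ) : ∃ (D : ℕ) (B : ℕ → ℕ), ∀ t : T D, WF B D t →
    ∀ c : ℕ → ℕ → Bool, ∃ (t' : T D') (X : Finset ℕ), WF B' D' t' ∧ Le t' t ∧
      Cof (X : Set ℕ) D' t' ∧ ∀ x ∈ X, TA (c x) x X D' t' := by
  classical
  obtain ⟨D, B, h⟩ := crt_step D' B'
  refine ⟨D, B, fun t ht c => ?_⟩
  obtain ⟨t', h1, h2, -, h4⟩ := h t ht c
  refine ⟨t', (Finset.range (hi t')).filter fun y => ∃ τ, Lv D' t' τ y, h1, h2,
    Cof.of_lv h1 fun τ y hy => ?_, fun x hx => h4 _ (fun y hy _ => ?_) x (by simpa using hx) ?_⟩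
  · simp only [Finset.coe_filter, Finset.mem_range, Set.mem_ofPred_eq]
    exact ⟨(Lv.in h1 hy).2, τ, hy⟩
  · simp only [Finset.coe_filter, Finset.mem_range, Set.mem_ofPred_eq] at hy
    exact hy.2
  · obtain ⟨τ, hτ⟩ := (Finset.mem_filter.1 hx).2
    exact Lv.in h1 hτ

/-- Either a deep node avoids `X`, or all nodes of a given height meet it. -/
theorem avoid_or_cof (X : Set ℕ) (E : ℕ) : ∀ (D' : ℕ) (t : T (E + D')), WF B (E + D') t →
    (∃ w : T E, WF B E w ∧ Le w t ∧ ∀ y ∈ X, ¬ In w y) ∨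
      ∃ t' : T D', WF B D' t' ∧ Le t' t ∧ Cof X D' t'
  | 0, t, ht => by
    by_cases h : ∃ y ∈ X, In t y
    · exact Or.inr ⟨leaf (lo t) (hi t), (ht.lt :), Le.cut ht, h⟩
    · exact Or.inl ⟨t, ht, Le.refl t, fun y hy hy' => h ⟨y, hy, hy'⟩⟩
  | D' + 1, t, ht => by
    have ht : WF B (E + D' + 1) t := ht
    by_cases h : ∃ i ε, ∃ w : T E, WF B E w ∧ Le w (ch (D := E + D') t i ε) ∧ ∀ y ∈ X, ¬ In w y
    · obtain ⟨i, ε, w, h1, h2, h3⟩ := h
      exact Or.inl ⟨w, h1, h2.trans (Le.desc ht i ε), h3⟩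
    · have h1 : ∀ i ε, ∃ t' : T D', WF B D' t' ∧ Le t' (ch (D := E + D') t i ε) ∧ Cof X D' t' :=
        fun i ε => (avoid_or_cof X E D' _ (ht.ch i ε)).resolve_left fun h' => h ⟨i, ε, h'⟩
      choose w hw1 hw2 hw3 using h1
      obtain ⟨h2, h3⟩ := node ht (B' := B) ht.2.1 id strictMono_id w hw1 hw2
      exact Or.inr ⟨_, h2, h3, hw3⟩

/-- The next point of `X`. -/
noncomputable def nx (X : Set ℕ) (y : ℕ) : ℕ := sInf {z | z ∈ X ∧ y ≤ z}

theorem nx_spec {X : Set ℕ} : ∀ {D : ℕ} {t : T D} {τ : P D} {y : ℕ}, WF B D t → Cof X D t →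
    Lv D t τ y → nx X y ∈ X ∧ In t (nx X y)
  | 0, t, _, y, _, ⟨z, hz, hz'⟩, hy => by
    have hy : y = lo t := hy
    subst hy
    have h1 : nx X (lo t) ∈ {z | z ∈ X ∧ lo t ≤ z} := Nat.sInf_mem ⟨z, hz, hz'.1⟩
    have h2 : nx X (lo t) ≤ z := Nat.sInf_le ⟨hz, hz'.1⟩
    exact ⟨h1.1, h1.2, h2.trans_lt hz'.2⟩
  | _ + 1, _, _, _, ht, hX, ⟨i, hy⟩ =>
    ⟨(nx_spec (ht.ch i _) (hX i _) hy).1, ht.in_ch (nx_spec (ht.ch i _) (hX i _) hy).2⟩

theorem col_inj {X : Set ℕ} {f : ℕ → ℕ} : ∀ {D : ℕ} {t : T D} (σ τ : P D), WF B D t → Cof X D t →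
    Div f D t → f (nx X (rep D t σ)) = f (nx X (rep D t τ)) → σ = τ
  | 0, _, _, _, _, _, _, _ => rfl
  | D + 1, t, (ε, σ), (δ, τ), ht, hX, hf, h => by
    have h1 := (nx_spec (ht.ch 0 ε) (hX 0 ε) (lv_rep D _ σ)).2
    have h2 := (nx_spec (ht.ch 0 δ) (hX 0 δ) (lv_rep D _ τ)).2
    cases ε <;> cases δ
    · rw [col_inj σ τ (ht.ch 0 false) (hX 0 false) (hf.2 0 false) h]
    · exact absurd h (hf.1 0 0 _ _ h1 h2)
    · exact absurd h.symm (hf.1 0 0 _ _ h2 h1)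
    · rw [col_inj σ τ (ht.ch 0 true) (hX 0 true) (hf.2 0 true) h]

/-- The last entry of a type path. -/
def last : (D : ℕ) → P (1 + D) → Bool
  | 0, τ => (τ : Bool × P 0).1
  | D + 1, τ => last D (τ : Bool × P (1 + D)).2

theorem cut_last {X : Set ℕ} {p : ℕ → Bool} : ∀ (D : ℕ) (t : T (1 + D)), WF B (1 + D) t →
    Cof X (1 + D) t → (∀ τ y, Lv (1 + D) t τ y → p (nx X y) = last D τ) →
    ∃ t' : T D, WF B D t' ∧ Le t' t ∧ Cof {y ∈ X | p y = true} D t' ∧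
      Cof {y ∈ X | p y = false} D t'
  | 0, t, ht, hX, hp => by
    have ht : WF B (0 + 1) t := ht
    have hX : Cof X (0 + 1) t := hX
    have h1 := fun ε => nx_spec (τ := (ε, ())) ht hX (lv_rep (0 + 1) t (ε, ()))
    have h2 := fun ε => hp (ε, ()) _ (lv_rep (0 + 1) t (ε, ()))
    exact ⟨leaf (lo t) (hi t), (ht.lt :), Le.cut ht, ⟨_, ⟨(h1 true).1, h2 true⟩, (h1 true).2⟩,
      ⟨_, ⟨(h1 false).1, h2 false⟩, (h1 false).2⟩⟩
  | D + 1, t, ht, hX, hp => by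
    have ht : WF B (1 + D + 1) t := ht
    have h1 := fun i ε => cut_last (p := p) D (ch (D := 1 + D) t i ε) (ht.ch i ε) (hX i ε)
      fun τ y hy => hp (ε, τ) y ⟨i, hy⟩
    choose w hw1 hw2 hw3 hw4 using h1
    obtain ⟨h2, h3⟩ := node ht (B' := B) ht.2.1 id strictMono_id w hw1 hw2
    exact ⟨_, h2, h3, hw3, hw4⟩

/-- The step that defeats a candidate cohesive set. -/
theorem coh_step (D' : ℕ) (B' : ℕ → ℕ) : ∃ (D : ℕ) (B : ℕ → ℕ), ∀ t : T D, WF B D t →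
    ∀ (f : ℕ → ℕ) (a : ℕ) (X : Set ℕ), (∀ y, f y < a) → a ≤ lo t → Div f D t →
      ∃ t' : T D', WF B' D' t' ∧ Le t' t ∧ ((∀ y ∈ X, ¬ In t' y) ∨ ∃ i < 2 ^ a,
        Cof {y ∈ X | i.testBit (f y) = true} D' t' ∧
        Cof {y ∈ X | i.testBit (f y) = false} D' t') := by
  classical
  obtain ⟨B, hB⟩ := unif (1 + D') B' id monotone_id
  refine ⟨D' + (1 + D'), fun p => B p + B' p, fun t ht f a X hfa ha hf => ?_⟩
  rcases avoid_or_cof X D' (1 + D') t ht with ⟨w, h1, h2, h3⟩ | ⟨t1, h1, h2, h3⟩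
  · exact ⟨w, h1.mono fun p => Nat.le_add_left _ _, h2, Or.inl h3⟩
  · obtain ⟨t2, h4, h5, -, h7⟩ := hB t1 (h1.mono fun p => Nat.le_add_right _ _) (Fin a)
      (by simpa using ha.trans h2.lo_le) (fun y z => decide (f (nx X y) = z))
    have hX : Cof X (1 + D') t2 := h5.cof X h3
    have hf2 : Div f (1 + D') t2 := (h5.trans h2).div f hf
    let i : ℕ := Nat.ofBits fun z : Fin a =>
      decide (∃ τ, f (nx X (rep (1 + D') t2 τ)) = z ∧ last D' τ = true)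
    have hp : ∀ τ y, Lv (1 + D') t2 τ y → i.testBit (f (nx X y)) = last D' τ := by
      intro τ y hy
      have e1 : f (nx X y) = f (nx X (rep (1 + D') t2 τ)) := by
        have := congrFun (h7 τ y _ hy (lv_rep _ t2 τ)) ⟨f (nx X y), hfa _⟩
        simpa [eq_comm] using this.symm
      rw [e1, Nat.testBit_ofBits_lt _ _ (hfa _)]
      cases hl : last D' τ
      · simp only [decide_eq_false_iff_not]
        rintro ⟨τ', h8, h9⟩
        rw [col_inj τ' τ h4 hX hf2 h8, hl] at h9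
        exact absurd h9 (by simp)
      · simp only [decide_eq_true_eq]
        exact ⟨τ, rfl, hl⟩
    obtain ⟨t', h8, h9, h10, h11⟩ := cut_last (p := fun y => i.testBit (f y)) D' t2 h4 hX hp
    exact ⟨t', h8, h9.trans (h5.trans h2), Or.inr ⟨i, Nat.ofBits_lt_two_pow _, h10, h11⟩⟩

/-- The step that avoids a small finite set. -/
theorem reg_step {D : ℕ} (t : T (D + 1)) (ht : WF B (D + 1) t) (hB : lo t + 1 ≤ B (lo t))
    (e : Finset ℕ) (he : e.card ≤ lo t) : ∃ t' : T D, WF B D t' ∧ Le t' t ∧ (∀ y ∈ e, ¬ In t' y) ∧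
      (lo t + 1) * (lo t + 1) ≤ lo t' ∧ ∀ X, Cof X (D + 1) t → ∃ y ∈ X, lo t ≤ y ∧ y < lo t' := by
  classical
  have h1 : ∃ i : Fin (br t + 1), i ≠ 0 ∧ ∀ y ∈ e, ¬ In (ch t i false) y := by
    by_contra hcon
    push Not at hcon
    have h2 : ∀ i : Fin (br t + 1), ∃ y, i ≠ 0 → y ∈ e ∧ In (ch t i false) y := by
      intro i
      by_cases hi : i = 0
      · exact ⟨0, fun h => absurd hi h⟩
      · obtain ⟨y, hy⟩ := hcon i hi
        exact ⟨y, fun _ => hy⟩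
    choose g hg using h2
    have h3 : (Finset.univ.erase (0 : Fin (br t + 1))).card ≤ e.card := by
      refine Finset.card_le_card_of_injOn g (fun i hi => (hg i (Finset.ne_of_mem_erase hi)).1) ?_
      intro i hi j hj hij
      have hi' := (hg i (Finset.ne_of_mem_erase hi)).2
      have hj' := (hg j (Finset.ne_of_mem_erase hj)).2
      rw [hij] at hi'
      exact (ht.uniq hi' hj').1
    rw [Finset.card_erase_of_mem (Finset.mem_univ _), Finset.card_univ, Fintype.card_fin] at h3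
    have := ht.2.1
    omega
  obtain ⟨i, hi, hi'⟩ := h1
  refine ⟨ch t i false, ht.ch i false, Le.desc ht i false, hi', (ht.2.2.1 i false).2.1,
    fun X hX => ?_⟩
  obtain ⟨y, hy, hy'⟩ := Cof.ex (ht.ch 0 false) (hX 0 false)
  exact ⟨y, hy, (ht.in_ch hy').1, hy'.2.trans_le
    (ht.2.2.2 0 false i false (Or.inl (Fin.pos_iff_ne_zero.2 hi)))⟩

/-- All four steps. -/
theorem all_steps (D' : ℕ) (B' : ℕ → ℕ) : ∃ (D : ℕ) (B : ℕ → ℕ), ∀ t : T D, WF B D t →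
    (∀ e : Finset ℕ, e.card ≤ lo t → ∃ t' : T D', WF B' D' t' ∧ Le t' t ∧ (∀ y ∈ e, ¬ In t' y) ∧
      (lo t + 1) * (lo t + 1) ≤ lo t' ∧ ∀ X, Cof X D t → ∃ y ∈ X, lo t ≤ y ∧ y < lo t') ∧
    (∀ h x X, TA h x X D t → x < lo t → ∃ t' : T D', WF B' D' t' ∧ Le t' t ∧
      ∃ b, ∀ y ∈ X, In t' y → h y = b) ∧
    (∀ c : ℕ → ℕ → Bool, ∃ (t' : T D') (X : Finset ℕ), WF B' D' t' ∧ Le t' t ∧
      Cof (X : Set ℕ) D' t' ∧ ∀ x ∈ X, TA (c x) x X D' t') ∧
    (∀ (f : ℕ → ℕ) (a : ℕ) (X : Set ℕ), (∀ y, f y < a) → a ≤ lo t → Div f D t →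
      ∃ t' : T D', WF B' D' t' ∧ Le t' t ∧ ((∀ y ∈ X, ¬ In t' y) ∨ ∃ i < 2 ^ a,
        Cof {y ∈ X | i.testBit (f y) = true} D' t' ∧
        Cof {y ∈ X | i.testBit (f y) = false} D' t')) := by
  obtain ⟨D1, B1, h1⟩ := crt_step' D' B'
  obtain ⟨D2, B2, h2⟩ := coh_step D' B'
  refine ⟨D' + D1 + D2 + 1, fun p => B' p + B1 p + B2 p + (p + 1), fun t ht => ⟨?_, ?_, ?_, ?_⟩⟩
  · intro e he
    obtain ⟨t1, h3, h4, h5, h6, h7⟩ := reg_step t ht (Nat.le_add_left _ _) e he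
    obtain ⟨t2, h8, h9⟩ := down (a := D') (by omega) t1 h3
    refine ⟨t2, h8.mono fun p => by omega, h9.trans h4, fun y hy hy' => h5 y hy (h9.in hy'),
      h6.trans h9.lo_le, fun X hX => ?_⟩
    obtain ⟨y, hy, hy1, hy2⟩ := h7 X hX
    exact ⟨y, hy, hy1, hy2.trans_le h9.lo_le⟩
  · intro h x X hT hx
    obtain ⟨ε, hε⟩ := hT.1 hx
    obtain ⟨b, hb⟩ := hε 0
    obtain ⟨t2, h8, h9⟩ := down (a := D') (by omega) _ (ht.ch 0 ε)
    exact ⟨t2, h8.mono fun p => by omega, h9.trans (Le.desc ht 0 ε), b,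
      fun y hy hy' => hb y hy (h9.in hy')⟩
  · intro c
    obtain ⟨t1, h8, h9⟩ := down (a := D1) (by omega) t ht
    obtain ⟨t', X, h3, h4, h5⟩ := h1 t1 (h8.mono fun p => by omega) c
    exact ⟨t', X, h3, h4.trans h9, h5⟩
  · intro f a X hfa ha hf
    obtain ⟨t1, h8, h9⟩ := down (a := D2) (by omega) t ht
    obtain ⟨t', h3, h4, h5⟩ := h2 t1 (h8.mono fun p => by omega) f a X hfa (ha.trans h9.lo_le)
      (h9.div f hf)
    exact ⟨t', h3, h4.trans h9, h5⟩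

theorem exists_tree (B : ℕ → ℕ) : ∀ (D p : ℕ), ∃ t : T D, WF B D t ∧ p ≤ lo t
  | 0, p => ⟨leaf p (p + 1), Nat.lt_succ_self p, le_rfl⟩
  | D + 1, p => by
    choose g hg1 hg2 using exists_tree B D
    let s : ℕ → T D := fun k => Nat.rec (g ((p + 1) * (p + 1))) (fun _ w => g (hi w)) k
    have hs1 : ∀ k, WF B D (s k) := fun k => by cases k <;> exact hg1 _
    have hs2 : ∀ k, hi (s k) ≤ lo (s (k + 1)) := fun k => hg2 _
    have hs3 : ∀ k l, k < l → hi (s k) ≤ lo (s l) := by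
      intro k l hkl
      induction l, hkl using Nat.le_induction with
      | base => exact hs2 k
      | succ l _ ih => exact ih.trans ((hs1 l).lt.le.trans (hs2 l))
    have hs4 : ∀ k, (p + 1) * (p + 1) ≤ lo (s k) := by
      intro k
      rcases k with _ | k
      · exact hg2 _
      · exact (hg2 _).trans ((hs1 0).lt.le.trans (hs3 0 (k + 1) (by omega)))
    refine ⟨mk p (lo (s (2 * B p + 2))) (B p) fun i ε => s (2 * i + ε.toNat), ⟨?_, le_rfl,
      fun i ε => ⟨hs1 _, hs4 _, hs3 (2 * i + ε.toNat) (2 * B p + 2) ?_⟩,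
      fun i ε j δ hb => hs3 (2 * i + ε.toNat) (2 * j + δ.toNat) ?_⟩, le_rfl⟩
    · have := hs4 (2 * B p + 2)
      show p < lo (s (2 * B p + 2))
      nlinarith
    · have h1 : (i : ℕ) < B p + 1 := i.2
      cases ε <;> simp <;> omega
    · rcases hb with hb | ⟨rfl, rfl, rfl⟩
      · have hb : (i : ℕ) < j := hb
        cases ε <;> cases δ <;> simp <;> omega
      · simp

theorem Div.congr {f f' : ℕ → ℕ} : ∀ {D : ℕ} {t : T D}, WF B D t →
    (∀ y z, In t y → In t z → f' y = f' z → f y = f z) → Div f D t → Div f' D t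
  | 0, _, _, _, _ => trivial
  | _ + 1, _, ht, h, hf => ⟨fun i j y z hy hz e => hf.1 i j y z hy hz
      (h y z (ht.in_ch hy) (ht.in_ch hz) e), fun i ε => Div.congr (ht.ch i ε)
      (fun y z hy hz => h y z (ht.in_ch hy) (ht.in_ch hz)) (hf.2 i ε)⟩

theorem exists_col : ∀ (D : ℕ) (t : T D), WF B D t → ∃ f : ℕ → ℕ, (∀ y, f y < 2 ^ D) ∧ Div f D t
  | 0, _, _ => ⟨fun _ => 0, fun _ => Nat.one_pos, trivial⟩
  | D + 1, t, ht => by
    classical
    choose g hg1 hg2 using fun i ε => exists_col D (ch t i ε) (ht.ch i ε)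
    let f : ℕ → ℕ := fun y => if h : ∃ q : Fin (br t + 1) × Bool, In (ch t q.1 q.2) y then
      2 * g h.choose.1 h.choose.2 y + h.choose.2.toNat else 0
    have hf : ∀ i ε y, In (ch t i ε) y → f y = 2 * g i ε y + ε.toNat := by
      intro i ε y hy
      have h : ∃ q : Fin (br t + 1) × Bool, In (ch t q.1 q.2) y := ⟨(i, ε), hy⟩
      obtain ⟨h1, h2⟩ := ht.uniq h.choose_spec hy
      simp only [f, dif_pos h, h1, h2]
    refine ⟨f, fun y => ?_, fun i j y z hy hz => ?_, fun i ε => Div.congr (ht.ch i ε)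
      (fun y z hy hz => ?_) (hg2 i ε)⟩
    · by_cases h : ∃ q : Fin (br t + 1) × Bool, In (ch t q.1 q.2) y
      · obtain ⟨⟨i, ε⟩, h⟩ := h
        rw [hf i ε y h, pow_succ]
        have := hg1 i ε y
        cases ε <;> simp <;> omega
      · simp only [f, dif_neg h]
        positivity
    · rw [hf _ _ _ hy, hf _ _ _ hz]
      simp
      omega
    · rw [hf _ _ _ hy, hf _ _ _ hz]
      omega

end Pool.Agent.Lib.MP_5a182c_lc
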