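import Pool.Agent.Lib.MP_5a182c_lc.Comb

/-!
Finite trees of intervals with two types of children.
-/

namespace Pool.Agent.Lib.MP_5a182c_lc

/-- The part of a tree below its root. -/
def K : ℕ → Type
  | 0 => Unit
  | D + 1 => Σ m : ℕ, Fin (m + 1) → Bool → ℕ × ℕ × K D

/-- Trees of depth `D`: an interval and the children. -/
def T (D : ℕ) : Type := ℕ × ℕ × K D

instance K.countable : ∀ D, Countable (K D)
  | 0 => inferInstanceAs (Countable Unit)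
  | D + 1 => by
    have := K.countable D
    exact inferInstanceAs (Countable (Σ m : ℕ, Fin (m + 1) → Bool → ℕ × ℕ × K D))

instance T.countable (D : ℕ) : Countable (T D) := inferInstanceAs (Countable (ℕ × ℕ × K D))

variable {D D' D'' : ℕ}

def lo (t : T D) : ℕ := t.1
def hi (t : T D) : ℕ := t.2.1
def br (t : T (D + 1)) : ℕ := (t.2.2 : Σ m : ℕ, Fin (m + 1) → Bool → ℕ × ℕ × K D).1
def ch (t : T (D + 1)) : Fin (br t + 1) → Bool → T D :=
  (t.2.2 : Σ m : ℕ, Fin (m + 1) → Bool → ℕ × ℕ × K D).2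
def mk (l h m : ℕ) (c : Fin (m + 1) → Bool → T D) : T (D + 1) :=
  (l, h, (⟨m, c⟩ : Σ m : ℕ, Fin (m + 1) → Bool → ℕ × ℕ × K D))
def leaf (l h : ℕ) : T 0 := (l, h, ())

/-- Membership in the interval of the root. -/
def In (t : T D) (y : ℕ) : Prop := lo t ≤ y ∧ y < hi t

/-- The order of the children. -/
def Bef {m : ℕ} (i : Fin m) (ε : Bool) (j : Fin m) (δ : Bool) : Prop :=
  i < j ∨ (i = j ∧ ε = false ∧ δ = true)

theorem bef_tri {m : ℕ} (i : Fin m) (ε : Bool) (j : Fin m) (δ : Bool) :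
    (i = j ∧ ε = δ) ∨ Bef i ε j δ ∨ Bef j δ i ε := by
  rcases lt_trichotomy i j with h | h | h
  · exact Or.inr (Or.inl (Or.inl h))
  · subst h
    cases ε <;> cases δ <;> simp [Bef]
  · exact Or.inr (Or.inr (Or.inl h))

/-- Well-formed trees with branching at least `B`. -/
def WF (B : ℕ → ℕ) : (D : ℕ) → T D → Prop
  | 0, t => lo t < hi t
  | D + 1, t => lo t < hi t ∧ B (lo t) ≤ br t ∧
      (∀ i ε, WF B D (ch t i ε) ∧ (lo t + 1) * (lo t + 1) ≤ lo (ch t i ε) ∧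
        hi (ch t i ε) ≤ hi t) ∧
      ∀ i ε j δ, Bef i ε j δ → hi (ch t i ε) ≤ lo (ch t j δ)

/-- `y` is the left end of a leaf with type path `τ`. -/
def Lv : (D : ℕ) → T D → P D → ℕ → Prop
  | 0, t, _, y => y = lo t
  | D + 1, t, τ, y => ∃ i, Lv D (ch t i τ.1) τ.2 y

/-- A leaf with a given type path. -/
def rep : (D : ℕ) → T D → P D → ℕ
  | 0, t, _ => lo t
  | D + 1, t, τ => rep D (ch t 0 τ.1) τ.2

/-- Every leaf meets `X`. -/
def Cof (X : Set ℕ) : (D : ℕ) → T D → Prop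
  | 0, t => ∃ y ∈ X, In t y
  | D + 1, t => ∀ i ε, Cof X D (ch t i ε)

/-- At each node above `x`, the function `h` is constant on `X` in each child of one type. -/
def TA (h : ℕ → Bool) (x : ℕ) (X : Set ℕ) : (D : ℕ) → T D → Prop
  | 0, _ => True
  | D + 1, t => (x < lo t → ∃ ε, ∀ i, ∃ b, ∀ y ∈ X, In (ch t i ε) y → h y = b) ∧
      ∀ i ε, TA h x X D (ch t i ε)

/-- Children of different types have different colours. -/
def Div (f : ℕ → ℕ) : (D : ℕ) → T D → Prop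
  | 0, _ => True
  | D + 1, t => (∀ i j y z, In (ch t i false) y → In (ch t j true) z → f y ≠ f z) ∧
      ∀ i ε, Div f D (ch t i ε)

variable {B B' : ℕ → ℕ}

theorem WF.lt : ∀ {D : ℕ} {t : T D}, WF B D t → lo t < hi t
  | 0, _, h => h
  | _ + 1, _, h => h.1

theorem WF.mono (hB : ∀ p, B' p ≤ B p) : ∀ {D : ℕ} {t : T D}, WF B D t → WF B' D t
  | 0, _, h => h
  | _ + 1, _, h => ⟨h.1, (hB _).trans h.2.1,
      fun i ε => ⟨(h.2.2.1 i ε).1.mono hB, (h.2.2.1 i ε).2⟩, h.2.2.2⟩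

theorem WF.ch {t : T (D + 1)} (h : WF B (D + 1) t) (i ε) : WF B D (ch t i ε) := (h.2.2.1 i ε).1

theorem WF.lo_lt {t : T (D + 1)} (h : WF B (D + 1) t) (i ε) : lo t < lo (MP_5a182c_lc.ch t i ε) := by
  have := (h.2.2.1 i ε).2.1
  nlinarith

theorem WF.in_ch {t : T (D + 1)} (h : WF B (D + 1) t) {i ε y} (hy : In (MP_5a182c_lc.ch t i ε) y) :
    In t y :=
  ⟨(h.lo_lt i ε).le.trans hy.1, hy.2.trans_le (h.2.2.1 i ε).2.2⟩

theorem WF.uniq {t : T (D + 1)} (h : WF B (D + 1) t) {i ε j δ y}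
    (hy : In (MP_5a182c_lc.ch t i ε) y) (hz : In (MP_5a182c_lc.ch t j δ) y) : i = j ∧ ε = δ := by
  rcases bef_tri i ε j δ with h1 | h1 | h1
  · exact h1
  · have := h.2.2.2 _ _ _ _ h1
    have := hy.2
    have := hz.1
    omega
  · have := h.2.2.2 _ _ _ _ h1
    have := hy.1
    have := hz.2
    omega

theorem lv_rep : ∀ (D : ℕ) (t : T D) (τ : P D), Lv D t τ (rep D t τ)
  | 0, _, _ => rfl
  | D + 1, _, τ => ⟨0, lv_rep D _ τ.2⟩

theorem Lv.in : ∀ {D : ℕ} {t : T D} {τ : P D} {y : ℕ}, WF B D t → Lv D t τ y → In t y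
  | 0, _, _, _, h, hy => by
    have hy : _ = _ := hy
    subst hy
    exact ⟨le_rfl, h⟩
  | _ + 1, _, _, _, h, ⟨i, hy⟩ => h.in_ch (Lv.in (h.ch i _) hy)

theorem Cof.ex {X : Set ℕ} : ∀ {D : ℕ} {t : T D}, WF B D t → Cof X D t → ∃ y ∈ X, In t y
  | 0, _, _, hX => hX
  | _ + 1, _, h, hX => by
    obtain ⟨y, hy, hy'⟩ := Cof.ex (h.ch 0 false) (hX 0 false)
    exact ⟨y, hy, h.in_ch hy'⟩

/-- Refinement of trees: all promises are kept. -/
structure Le (t' : T D') (t : T D) : Prop where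
  lo_le : lo t ≤ lo t'
  hi_le : hi t' ≤ hi t
  cof : ∀ X, Cof X D t → Cof X D' t'
  ta : ∀ h x X, TA h x X D t → TA h x X D' t'
  div : ∀ f, Div f D t → Div f D' t'

theorem Le.refl (t : T D) : Le t t := ⟨le_rfl, le_rfl, fun _ h => h, fun _ _ _ h => h, fun _ h => h⟩

theorem Le.trans {t'' : T D''} {t' : T D'} {t : T D} (h1 : Le t'' t') (h2 : Le t' t) : Le t'' t :=
  ⟨h2.lo_le.trans h1.lo_le, h1.hi_le.trans h2.hi_le, fun X h => h1.cof X (h2.cof X h),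
    fun a b c h => h1.ta a b c (h2.ta a b c h), fun f h => h1.div f (h2.div f h)⟩

theorem Le.in {t' : T D'} {t : T D} (h : Le t' t) {y : ℕ} (hy : In t' y) : In t y :=
  ⟨h.lo_le.trans hy.1, hy.2.trans_le h.hi_le⟩

theorem Le.desc {t : T (D + 1)} (h : WF B (D + 1) t) (i ε) : Le (ch t i ε) t :=
  ⟨(h.lo_lt i ε).le, (h.2.2.1 i ε).2.2, fun _ hX => hX i ε, fun _ _ _ hX => hX.2 i ε,
    fun _ hX => hX.2 i ε⟩

theorem Le.cut {t : T D} (h : WF B D t) : Le (leaf (lo t) (hi t)) t :=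
  ⟨le_rfl, le_rfl, fun _ hX => (Cof.ex (t := t) h hX :), fun _ _ _ _ => trivial,
    fun _ _ => trivial⟩

theorem node {t : T (D + 1)} (h : WF B (D + 1) t) {r : ℕ} (hr : B' (lo t) ≤ r)
    (σ : Fin (r + 1) → Fin (br t + 1)) (hσ : StrictMono σ) (c : Fin (r + 1) → Bool → T D')
    (hc : ∀ i ε, WF B' D' (c i ε)) (hle : ∀ i ε, Le (c i ε) (ch t (σ i) ε)) :
    WF B' (D' + 1) (mk (lo t) (hi t) r c) ∧ Le (mk (lo t) (hi t) r c) t := by
  refine ⟨⟨h.1, hr, fun i ε => ⟨hc i ε, ((h.2.2.1 (σ i) ε).2.1).trans (hle i ε).lo_le,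
    (hle i ε).hi_le.trans (h.2.2.1 (σ i) ε).2.2⟩, fun i ε j δ hb => ?_⟩,
    ⟨le_rfl, le_rfl, fun X hX i ε => (hle i ε).cof X (hX _ _), fun g x X hX => ⟨fun hx => ?_,
      fun i ε => (hle i ε).ta _ _ _ (hX.2 _ _)⟩, fun f hf => ⟨fun i j y z hy hz => ?_,
      fun i ε => (hle i ε).div _ (hf.2 _ _)⟩⟩⟩
  · refine (hle i ε).hi_le.trans ((h.2.2.2 (σ i) ε (σ j) δ ?_).trans (hle j δ).lo_le)
    rcases hb with hb | ⟨hb, hb'⟩
    · exact Or.inl (hσ hb)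
    · exact Or.inr ⟨congrArg σ hb, hb'⟩
  · obtain ⟨ε, hε⟩ := hX.1 hx
    refine ⟨ε, fun i => ?_⟩
    obtain ⟨b, hb⟩ := hε (σ i)
    exact ⟨b, fun y hy hy' => hb y hy ((hle i ε).in hy')⟩
  · exact hf.1 (σ i) (σ j) y z ((hle i false).in hy) ((hle j true).in hz)

/-- Uniformisation: after pruning, the value of a leaf depends only on its type path. -/
theorem unif (D : ℕ) (B' Kf : ℕ → ℕ) (hK : Monotone Kf) : ∃ B : ℕ → ℕ, ∀ t : T D, WF B D t →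
    ∀ (ι : Type) [Fintype ι], Fintype.card ι ≤ Kf (lo t) → ∀ V : ℕ → ι → Bool,
      ∃ t' : T D, WF B' D t' ∧ Le t' t ∧ (∀ τ y, Lv D t' τ y → Lv D t τ y) ∧
        ∀ τ y y', Lv D t' τ y → Lv D t' τ y' → V y = V y' := by
  classical
  induction D with
  | zero =>
    refine ⟨B', fun t ht ι _ _ V => ⟨t, ht, Le.refl t, fun _ _ h => h, fun τ y y' h h' => ?_⟩⟩
    have h : y = lo t := h
    have h' : y' = lo t := h'
    rw [h, h']
  | succ D ih =>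
    obtain ⟨B, hB⟩ := ih
    refine ⟨fun p => B p + (2 ^ Kf p) ^ Fintype.card (P (D + 1)) * B' p, fun t ht ι _ hι V => ?_⟩
    have ht0 : WF B (D + 1) t := ht.mono fun p => Nat.le_add_right _ _
    have h1 := fun i ε => hB (ch t i ε) (ht0.ch i ε) ι (hι.trans (hK (ht0.lo_lt i ε).le)) V
    choose w hw1 hw2 hw3 hw4 using h1
    have hcard : Fintype.card (P (D + 1) → ι → Bool) ≤ (2 ^ Kf (lo t)) ^ Fintype.card (P (D + 1)) := by
      rw [Fintype.card_fun, Fintype.card_fun, Fintype.card_bool]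
      exact Nat.pow_le_pow_left (Nat.pow_le_pow_right (by norm_num) hι) _
    obtain ⟨σ, hσ, hσ'⟩ := pigeon (κ := P (D + 1) → ι → Bool) _ (B' (lo t)) (br t) hcard
      ((Nat.le_add_left _ _).trans ht.2.1) (fun i τ => V (rep D (w i τ.1) τ.2))
    obtain ⟨h2, h3⟩ := node ht0 (B' := B') le_rfl σ hσ (fun i ε => w (σ i) ε) (fun i ε => hw1 _ _)
      (fun i ε => hw2 _ _)
    refine ⟨_, h2, h3, ?_, ?_⟩
    · rintro τ y ⟨i, hy⟩
      exact ⟨σ i, hw3 _ _ _ _ hy⟩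
    · rintro τ y y' ⟨i, hy⟩ ⟨j, hy'⟩
      have e1 := hw4 _ _ _ _ _ hy (lv_rep D _ τ.2)
      have e2 := hw4 _ _ _ _ _ hy' (lv_rep D _ τ.2)
      exact e1.trans ((congrFun (hσ' i j) τ).trans e2.symm)

/-- Restriction to an embedded binary tree of types. -/
theorem restrict : ∀ {a b : ℕ} (θ : Emb a b) (t : T b), WF B b t →
    ∃ t' : T a, WF B a t' ∧ Le t' t ∧ ∀ τ y, Lv a t' τ y → Lv b t (θ.app τ) y
  | _, _, .nil, t, ht => ⟨t, ht, Le.refl t, fun _ _ h => h⟩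
  | _, _, .skip ε θ, t, ht => by
    obtain ⟨t', h1, h2, h3⟩ := restrict θ (ch t 0 ε) (ht.ch 0 ε)
    exact ⟨t', h1, h2.trans (Le.desc ht 0 ε), fun τ y h => ⟨0, h3 τ y h⟩⟩
  | _, _, @Emb.split a b θ0 θ1, t, ht => by
    have h1 : ∀ i ε, ∃ t' : T a, WF B a t' ∧ Le t' (ch t i ε) ∧
        ∀ τ y, Lv a t' τ y → Lv b (ch t i ε) (cond ε (θ1.app τ) (θ0.app τ)) y := by
      intro i ε
      cases ε
      · exact restrict θ0 _ (ht.ch i false)
      · exact restrict θ1 _ (ht.ch i true)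
    choose w hw1 hw2 hw3 using h1
    obtain ⟨h2, h3⟩ := node ht (B' := B) ht.2.1 id strictMono_id w hw1 hw2
    refine ⟨_, h2, h3, ?_⟩
    rintro τ y ⟨i, hy⟩
    exact ⟨i, hw3 _ _ _ _ hy⟩

theorem down {a b : ℕ} (hab : a ≤ b) (t : T b) (ht : WF B b t) :
    ∃ t' : T a, WF B a t' ∧ Le t' t := by
  obtain ⟨θ⟩ := Emb.nonempty b a hab
  obtain ⟨t', h1, h2, -⟩ := restrict θ t ht
  exact ⟨t', h1, h2⟩

/-- The points of `X` in the interval of `t` are leaves of `t`. -/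
def Sub (X : Set ℕ) (t : T D) : Prop := ∀ y ∈ X, In t y → ∃ τ, Lv D t τ y

theorem Sub.ch {X : Set ℕ} {t : T (D + 1)} (h : WF B (D + 1) t) (hX : Sub X t) (i ε) :
    Sub X (ch t i ε) := by
  intro y hy hy'
  obtain ⟨⟨δ, τ⟩, j, hj⟩ := hX y hy (h.in_ch hy')
  obtain ⟨rfl, rfl⟩ := h.uniq hy' (Lv.in (h.ch j δ) hj)
  exact ⟨τ, hj⟩

theorem TA.of_const {h : ℕ → Bool} {x : ℕ} {X : Set ℕ} {k : Bool} : ∀ {D : ℕ} {t : T D},
    WF B D t → (∀ y ∈ X, In t y → h y = k) → TA h x X D t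
  | 0, _, _, _ => trivial
  | _ + 1, _, ht, hk => ⟨fun _ => ⟨false, fun _ => ⟨k, fun y hy hy' => hk y hy (ht.in_ch hy')⟩⟩,
      fun i ε => TA.of_const (ht.ch i ε) fun y hy hy' => hk y hy (ht.in_ch hy')⟩

theorem TA.of_ge {h : ℕ → Bool} {x : ℕ} {X : Set ℕ} : ∀ {D : ℕ} {t : T D},
    WF B D t → hi t ≤ x → TA h x X D t
  | 0, _, _, _ => trivial
  | _ + 1, _, ht, hx => ⟨fun h => absurd (ht.1.trans_le hx) (not_lt.2 h.le),
      fun i ε => TA.of_ge (ht.ch i ε) ((ht.2.2.1 i ε).2.2.trans hx)⟩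

theorem TA.congr {h : ℕ → Bool} {x : ℕ} {X X' : Set ℕ} : ∀ {D : ℕ} {t : T D},
    WF B D t → (∀ y ∈ X, In t y → y ∈ X') → TA h x X' D t → TA h x X D t
  | 0, _, _, _, _ => trivial
  | _ + 1, _, ht, hX, hT => by
    refine ⟨fun hx => ?_, fun i ε => TA.congr (ht.ch i ε)
      (fun y hy hy' => hX y hy (ht.in_ch hy')) (hT.2 i ε)⟩
    obtain ⟨ε, hε⟩ := hT.1 hx
    refine ⟨ε, fun i => ?_⟩
    obtain ⟨b, hb⟩ := hε i
    exact ⟨b, fun y hy hy' => hb y (hX y hy (ht.in_ch hy')) hy'⟩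

theorem TA.of_cut {h : ℕ → Bool} {x : ℕ} {X : Set ℕ} {k1 k2 : Bool} : ∀ {D : ℕ} {t : T D}
    (σ : P D), WF B D t → Sub X t →
    (∀ τ y, Lv D t τ y → (P.lt D σ τ → h y = k1) ∧ (P.lt D τ σ → h y = k2)) → TA h x X D t
  | 0, _, _, _, _, _ => trivial
  | D + 1, t, (ε, σ), ht, hX, hk => by
    have key : ∀ i, ∃ b, ∀ y ∈ X, In (ch t i (!ε)) y → h y = b := by
      intro i
      refine ⟨cond ε k2 k1, fun y hy hy' => ?_⟩
      obtain ⟨τ, hτ⟩ := hX.ch ht i (!ε) y hy hy'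
      have := hk (!ε, τ) y ⟨i, hτ⟩
      cases ε
      · exact this.1 (Or.inl ⟨rfl, rfl⟩)
      · exact this.2 (Or.inl ⟨rfl, rfl⟩)
    refine ⟨fun _ => ⟨!ε, key⟩, fun i δ => ?_⟩
    by_cases hδ : δ = ε
    · subst hδ
      refine TA.of_cut (k1 := k1) (k2 := k2) σ (ht.ch i δ) (hX.ch ht i δ) fun τ y hy => ?_
      have := hk (δ, τ) y ⟨i, hy⟩
      exact ⟨fun h => this.1 (Or.inr ⟨rfl, h⟩), fun h => this.2 (Or.inr ⟨rfl, h⟩)⟩
    · obtain rfl : δ = !ε := by cases ε <;> cases δ <;> simp_all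
      obtain ⟨b, hb⟩ := key i
      exact TA.of_const (ht.ch i _) hb

theorem Cof.of_lv {X : Set ℕ} : ∀ {D : ℕ} {t : T D}, WF B D t → (∀ τ y, Lv D t τ y → y ∈ X) →
    Cof X D t
  | 0, t, ht, hX => ⟨lo t, hX () _ rfl, le_rfl, ht⟩
  | _ + 1, _, ht, hX => fun i ε => Cof.of_lv (ht.ch i ε) fun τ y hy => hX (ε, τ) y ⟨i, hy⟩

end Pool.Agent.Lib.MP_5a182c_lc
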